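import Mathlib

/-!
# SLAB: the corank of a cut matrix after changing some diagonal entries

`M` is a symmetric matrix over the field with two elements, `ck M B` the corank of `M` after adding
`1` to the diagonal entries in `B`.  `ck M B + |B|` only depends on the nonzero rows `v` of `M` such
that `B` contains all indices with row `v`.
-/

set_option autoImplicit false

open Module

namespace Pool.Agent.SLAB

variable {E : Type} [Fintype E] [DecidableEq E] (M : Matrix E E (ZMod 2))

/-- `M` with `1` added to the diagonal entries in `B` -/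
def NB (B : Finset E) : Matrix E E (ZMod 2) :=
  M + Matrix.diagonal fun c => if c ∈ B then (1 : ZMod 2) else 0

/-- the corank -/
noncomputable def ck (B : Finset E) : ℕ := finrank (ZMod 2) (LinearMap.ker (NB M B).mulVecLin)

theorem mem_ker_NB (B : Finset E) (x : E → ZMod 2) :
    x ∈ LinearMap.ker (NB M B).mulVecLin ↔
      ∀ d, M.mulVec x d + (if d ∈ B then x d else 0) = 0 := by
  rw [LinearMap.mem_ker, Matrix.mulVecLin_apply, NB, Matrix.add_mulVec, funext_iff]
  refine forall_congr' fun d => ?_
  rw [Pi.add_apply, Matrix.mulVec_diagonal, Pi.zero_apply]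
  split_ifs
  · rw [one_mul]
  · rw [zero_mul]

theorem mulVec_row {c d : E} (h : M c = M d) (x : E → ZMod 2) :
    M.mulVec x c = M.mulVec x d := by
  have h1 : ∀ i, M.mulVec x i = ∑ j, M i j * x j := fun _ => rfl
  rw [h1, h1]
  exact Finset.sum_congr rfl fun j _ => by rw [congrFun h j]

theorem mulVec_zero {c : E} (h : M c = 0) (x : E → ZMod 2) : M.mulVec x c = 0 := by
  have h1 : ∀ i, M.mulVec x i = ∑ j, M i j * x j := fun _ => rfl
  rw [h1]
  refine Finset.sum_eq_zero fun j _ => ?_
  rw [congrFun h j, Pi.zero_apply, zero_mul]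

theorem rank_add (M N : Matrix E E (ZMod 2)) : (M + N).rank ≤ M.rank + N.rank := by
  unfold Matrix.rank
  have h1 : LinearMap.range (M + N).mulVecLin ≤
      LinearMap.range M.mulVecLin ⊔ LinearMap.range N.mulVecLin := by
    rw [Matrix.mulVecLin_add]
    rintro _ ⟨x, rfl⟩
    exact Submodule.add_mem_sup ⟨x, rfl⟩ ⟨x, rfl⟩
  exact (Submodule.finrank_mono h1).trans (Submodule.finrank_add_le_finrank_add_finrank _ _)

/-- one more diagonal entry -/
theorem ck_insert {B : Finset E} {c : E} (hc : c ∉ B)
    (h1 : ∀ x ∈ LinearMap.ker (NB M (insert c B)).mulVecLin, M.mulVec x c = 0)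
    (z : E → ZMod 2) (hz : z ∈ LinearMap.ker (NB M B).mulVecLin) (hzc : z c = 1) :
    ck M (insert c B) + 1 = ck M B := by
  classical
  obtain ⟨K, hK⟩ : ∃ K, K = LinearMap.ker (NB M B).mulVecLin := ⟨_, rfl⟩
  obtain ⟨φ, hφ⟩ : ∃ φ : K →ₗ[ZMod 2] ZMod 2, φ = (LinearMap.proj c).comp K.subtype := ⟨_, rfl⟩
  have hker : (LinearMap.ker φ).map K.subtype = LinearMap.ker (NB M (insert c B)).mulVecLin := by
    ext x
    rw [Submodule.mem_map]
    constructor
    · rintro ⟨y, hy, rfl⟩
      rw [LinearMap.mem_ker, hφ] at hy
      have hy0 : (y : E → ZMod 2) c = 0 := hy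
      have hyK : (y : E → ZMod 2) ∈ LinearMap.ker (NB M B).mulVecLin := by
        rw [← hK]
        exact y.2
      rw [mem_ker_NB] at hyK ⊢
      intro d
      have h2 := hyK d
      rw [Submodule.subtype_apply]
      by_cases hd : d = c
      · subst hd
        rw [if_neg hc] at h2
        rw [if_pos (Finset.mem_insert_self _ _), hy0]
        exact h2
      · simp only [Finset.mem_insert, hd, false_or]
        exact h2
    · intro hx
      have h2 := h1 x hx
      have hx' := (mem_ker_NB M _ x).1 hx
      have h3 : x c = 0 := by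
        have h4 := hx' c
        rw [h2, if_pos (Finset.mem_insert_self _ _), zero_add] at h4
        exact h4
      have h5 : x ∈ K := by
        rw [hK, mem_ker_NB]
        intro d
        by_cases hd : d = c
        · subst hd
          rw [if_neg hc, h2, add_zero]
        · have h4 := hx' d
          simp only [Finset.mem_insert, hd, false_or] at h4
          exact h4
      refine ⟨⟨x, h5⟩, ?_, rfl⟩
      rw [LinearMap.mem_ker, hφ]
      exact h3
  have hsurj : LinearMap.range φ = ⊤ := by
    rw [LinearMap.range_eq_top]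
    intro t
    have hzK : z ∈ K := by rw [hK]; exact hz
    refine ⟨t • ⟨z, hzK⟩, ?_⟩
    rw [map_smul, hφ]
    change t • z c = t
    rw [hzc, smul_eq_mul, mul_one]
  have h6 := LinearMap.finrank_range_add_finrank_ker φ
  rw [hsurj, finrank_top, finrank_self] at h6
  have h7 : finrank (ZMod 2) (LinearMap.ker (NB M (insert c B)).mulVecLin) =
      finrank (ZMod 2) (LinearMap.ker φ) := by
    rw [← hker]
    exact Submodule.finrank_map_subtype_eq _ _
  unfold ck
  rw [h7, ← hK]
  omega

/-- a further index of an incomplete class -/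
theorem ck_twin (hM : ∀ i j, M i j = M j i) {B : Finset E} {c c' : E} (hc : c ∉ B) (hc' : c' ∉ B)
    (hne : c' ≠ c) (h : M c' = M c) : ck M (insert c B) + 1 = ck M B := by
  classical
  refine ck_insert M hc ?_ (Pi.single c 1 + Pi.single c' 1) ?_ ?_
  · intro x hx
    rw [mem_ker_NB] at hx
    have h1 := hx c'
    rw [if_neg (by rw [Finset.mem_insert, not_or]; exact ⟨hne, hc'⟩), add_zero] at h1
    rw [← mulVec_row M h x, h1]
  · rw [mem_ker_NB]
    intro d
    have h1 : M.mulVec (Pi.single c 1 + Pi.single c' 1) d = 0 := by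
      rw [Matrix.mulVec_add, Matrix.mulVec_single_one, Matrix.mulVec_single_one, Pi.add_apply,
        Matrix.col_apply, Matrix.col_apply, hM d c, hM d c', h]
      exact CharTwo.add_self_eq_zero _
    rw [h1, zero_add]
    split_ifs with h2
    · have h3 : d ≠ c := fun h4 => hc (h4 ▸ h2)
      have h4 : d ≠ c' := fun h5 => hc' (h5 ▸ h2)
      rw [Pi.add_apply, Pi.single_eq_of_ne h3, Pi.single_eq_of_ne h4, add_zero]
    · rfl
  · rw [Pi.add_apply, Pi.single_eq_same, Pi.single_eq_of_ne (Ne.symm hne), add_zero]

/-- an index with row `0` -/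
theorem ck_zero (hM : ∀ i j, M i j = M j i) {B : Finset E} {c : E} (hc : c ∉ B)
    (h : M c = 0) : ck M (insert c B) + 1 = ck M B := by
  classical
  refine ck_insert M hc ?_ (Pi.single c 1) ?_ (Pi.single_eq_same _ _)
  · intro x _
    exact mulVec_zero M h x
  · rw [mem_ker_NB]
    intro d
    have h1 : M.mulVec (Pi.single c 1) d = 0 := by
      rw [Matrix.mulVec_single_one, Matrix.col_apply, hM d c, h]
      rfl
    rw [h1, zero_add]
    split_ifs with h2
    · have h3 : d ≠ c := fun h4 => hc (h4 ▸ h2)
      exact Pi.single_eq_of_ne h3 _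
    · rfl

/-- adding indices of incomplete classes or with row `0` -/
theorem ck_chain (hM : ∀ i j, M i j = M j i) {B C : Finset E} (hCB : C ⊆ B)
    (h : ∀ c ∈ B, c ∉ C → M c = 0 ∨ ∃ c', c' ∉ B ∧ M c' = M c) :
    ck M B + B.card = ck M C + C.card := by
  classical
  have key : ∀ X : Finset E, X ⊆ B \ C → ck M (C ∪ X) + (C ∪ X).card = ck M C + C.card := by
    intro X
    refine Finset.induction_on X ?_ ?_
    · intro _
      rw [Finset.union_empty]
    · intro c X hcX ih hX
      have hc : c ∈ B \ C := hX (Finset.mem_insert_self _ _)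
      have hXB : X ⊆ B \ C := fun y hy => hX (Finset.mem_insert_of_mem hy)
      have h1 := ih hXB
      rw [Finset.mem_sdiff] at hc
      have hcU : c ∉ C ∪ X := by
        rw [Finset.mem_union, not_or]
        exact ⟨hc.2, hcX⟩
      have hU : C ∪ X ⊆ B := by
        intro y hy
        rcases Finset.mem_union.1 hy with hy | hy
        · exact hCB hy
        · exact (Finset.mem_sdiff.1 (hXB hy)).1
      have h2 : ck M (insert c (C ∪ X)) + 1 = ck M (C ∪ X) := by
        rcases h c hc.1 hc.2 with h3 | ⟨c', h3, h4⟩
        · exact ck_zero M hM hcU h3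
        · exact ck_twin M hM hcU (fun h5 => h3 (hU h5)) (fun h5 => h3 (h5 ▸ hc.1)) h4
      rw [Finset.union_insert, Finset.card_insert_of_notMem hcU]
      omega
  have h1 := key (B \ C) (Finset.Subset.refl _)
  rw [Finset.union_sdiff_of_subset hCB] at h1
  exact h1

/-- the bound by the rank -/
theorem ck_bound (B : Finset E) :
    ck M B + B.card ≤ Fintype.card E + M.rank ∧ Fintype.card E ≤ ck M B + B.card + M.rank := by
  classical
  have h1 : (NB M B).rank + ck M B = Fintype.card E := by
    unfold Matrix.rank ck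
    rw [LinearMap.finrank_range_add_finrank_ker, finrank_fintype_fun_eq_card]
  obtain ⟨D, hD⟩ : ∃ D : Matrix E E (ZMod 2),
      D = Matrix.diagonal fun c => if c ∈ B then (1 : ZMod 2) else 0 := ⟨_, rfl⟩
  have h2 : D.rank = B.card := by
    rw [hD, Matrix.rank_diagonal, Fintype.card_subtype]
    congr 1
    ext c
    rw [Finset.mem_filter]
    constructor
    · rintro ⟨_, h⟩
      by_contra h3
      rw [if_neg h3] at h
      exact h rfl
    · intro h
      refine ⟨Finset.mem_univ _, ?_⟩
      rw [if_pos h]
      exact one_ne_zero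
  have h3 : (NB M B).rank ≤ M.rank + D.rank := by
    unfold NB
    rw [← hD]
    exact rank_add _ _
  have h4 : D.rank ≤ (NB M B).rank + M.rank := by
    have h5 : D = NB M B + M := by
      unfold NB
      rw [← hD]
      ext i j
      rw [Matrix.add_apply, Matrix.add_apply, add_comm (M i j), add_assoc,
        CharTwo.add_self_eq_zero, add_zero]
    calc D.rank = (NB M B + M).rank := by rw [← h5]
      _ ≤ _ := rank_add _ _
  rw [h2] at h3 h4
  omega

end Pool.Agent.SLAB
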