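import Mathlib
import Pool.Agent.SLAB.LA

/-!
# SLAB: a weighted sum over the states

The complex weights of the two smoothings of a crossing have sum `1` and absolute value `1`.
-/

set_option autoImplicit false
set_option linter.unusedSectionVars false

open Module

namespace Pool.Agent.SLAB

variable {E : Type} [Fintype E] [DecidableEq E] (M : Matrix E E (ZMod 2)) (σ : E → Bool)

/-- the crossings at which the state `s` differs from `σ` -/
def dif (s : E → Bool) : Finset E := Finset.univ.filter fun c => s c ≠ σ c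

/-- the nonzero rows -/
def nzr : Finset (E → ZMod 2) := (Finset.univ.image M).erase 0

open Classical in
/-- the nonzero rows `v` such that `s` differs from `σ` at all crossings with row `v` -/
noncomputable def ful (s : E → Bool) : Finset (E → ZMod 2) :=
  (nzr M).filter fun v => ∀ c, M c = v → s c ≠ σ c

open Classical in
/-- the crossings with row in `W` -/
noncomputable def crs (W : Finset (E → ZMod 2)) : Finset E :=
  Finset.univ.filter fun c => M c ∈ W

/-- corank plus number of changes, as a function of the set of the full classes -/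
theorem ck_ful (hM : ∀ i j, M i j = M j i) (s : E → Bool) :
    ck M (dif σ s) + (dif σ s).card =
      ck M (crs M (ful M σ s)) + (crs M (ful M σ s)).card := by
  classical
  refine ck_chain M hM ?_ ?_
  · intro c hc
    unfold crs at hc
    rw [Finset.mem_filter] at hc
    have h1 := hc.2
    unfold ful at h1
    rw [Finset.mem_filter] at h1
    unfold dif
    rw [Finset.mem_filter]
    exact ⟨Finset.mem_univ _, h1.2 c rfl⟩
  · intro c _ hc
    by_cases h0 : M c = 0
    · exact Or.inl h0
    · right
      by_contra h1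
      push Not at h1
      apply hc
      unfold crs
      rw [Finset.mem_filter]
      refine ⟨Finset.mem_univ _, ?_⟩
      unfold ful
      rw [Finset.mem_filter]
      refine ⟨Finset.mem_erase.2 ⟨h0, Finset.mem_image_of_mem _ (Finset.mem_univ _)⟩, ?_⟩
      intro c' hc'
      by_contra h2
      refine h1 c' ?_ hc'
      unfold dif
      rw [Finset.mem_filter]
      exact fun h3 => h3.2 h2

open Classical in
/-- the indicator of a full class -/
noncomputable def chi (v : E → ZMod 2) (s : E → Bool) : ℂ :=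
  if ∀ c, M c = v → s c ≠ σ c then 1 else 0

/-- the sum of the states for which the classes in `U` are full -/
theorem sum_chi (w : E → Bool → ℂ) (h1 : ∀ c, w c true + w c false = 1)
    (h2 : ∀ c b, ‖w c b‖ = 1) (U : Finset (E → ZMod 2)) :
    ‖∑ s : E → Bool, (∏ c, w c (s c)) * ∏ v ∈ U, chi M σ v s‖ = 1 := by
  classical
  have h3 : ∀ s : E → Bool, (∏ c, w c (s c)) * ∏ v ∈ U, chi M σ v s =
      ∏ c, (w c (s c) * if M c ∈ U ∧ s c = σ c then 0 else 1) := by
    intro s
    rw [Finset.prod_mul_distrib]
    congr 1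
    by_cases h : ∀ c, M c ∈ U → s c ≠ σ c
    · rw [Finset.prod_eq_one, Finset.prod_eq_one]
      · intro c _
        rw [if_neg]
        exact fun h4 => h c h4.1 h4.2
      · intro v hv
        unfold chi
        rw [if_pos]
        intro c hc
        exact h c (by rw [hc]; exact hv)
    · push Not at h
      obtain ⟨c, hc1, hc2⟩ := h
      rw [Finset.prod_eq_zero hc1, Finset.prod_eq_zero (Finset.mem_univ c)]
      · rw [if_pos ⟨hc1, hc2⟩]
      · unfold chi
        rw [if_neg]
        exact fun h4 => h4 c rfl hc2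
  have h4 : ∑ s : E → Bool, (∏ c, w c (s c)) * ∏ v ∈ U, chi M σ v s =
      ∏ c, ∑ b : Bool, (w c b * if M c ∈ U ∧ b = σ c then 0 else 1) := by
    rw [Finset.prod_univ_sum, Fintype.piFinset_univ]
    exact Finset.sum_congr rfl fun s _ => h3 s
  rw [h4, norm_prod]
  refine Finset.prod_eq_one fun c _ => ?_
  rw [Fintype.sum_bool]
  by_cases h5 : M c ∈ U
  · rcases hb : σ c with _ | _
    · simp [h5, h2]
    · simp [h5, h2]
  · simp [h5, h1]

theorem ful_mem (s : E → Bool) : ful M σ s ∈ (nzr M).powerset := by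
  classical
  rw [Finset.mem_powerset]
  exact Finset.filter_subset _ _

/-- the indicator of the set of the full classes -/
theorem ind_ful (s : E → Bool) (W : Finset (E → ZMod 2)) (hW : W ∈ (nzr M).powerset) :
    (if ful M σ s = W then (1 : ℂ) else 0) =
      ∑ T ∈ (nzr M \ W).powerset, (-1) ^ T.card * ∏ v ∈ W ∪ T, chi M σ v s := by
  classical
  rw [Finset.mem_powerset] at hW
  have h1 : ∑ T ∈ (nzr M \ W).powerset, (-1 : ℂ) ^ T.card * ∏ v ∈ W ∪ T, chi M σ v s =
      (∏ v ∈ W, chi M σ v s) * ∏ v ∈ nzr M \ W, (1 - chi M σ v s) := by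
    have h2 : ∏ v ∈ nzr M \ W, (1 - chi M σ v s) =
        ∑ T ∈ (nzr M \ W).powerset, (-1 : ℂ) ^ T.card * ∏ v ∈ T, chi M σ v s := by
      have h3 : ∏ v ∈ nzr M \ W, (1 - chi M σ v s) =
          ∏ v ∈ nzr M \ W, ((-1) * chi M σ v s + 1) :=
        Finset.prod_congr rfl fun v _ => by ring
      rw [h3, Finset.prod_add]
      refine Finset.sum_congr rfl fun T _ => ?_
      rw [Finset.prod_const_one, mul_one, Finset.prod_mul_distrib, Finset.prod_const]
    rw [h2, Finset.mul_sum]
    refine Finset.sum_congr rfl fun T hT => ?_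
    rw [Finset.mem_powerset] at hT
    have hd : Disjoint W T := by
      rw [Finset.disjoint_left]
      intro v hv hv'
      exact (Finset.mem_sdiff.1 (hT hv')).2 hv
    rw [Finset.prod_union hd]
    ring
  rw [h1]
  have hmem : ∀ v, v ∈ ful M σ s ↔ v ∈ nzr M ∧ ∀ c, M c = v → s c ≠ σ c := by
    intro v
    unfold ful
    rw [Finset.mem_filter]
  by_cases h : ful M σ s = W
  · rw [if_pos h, Finset.prod_eq_one, Finset.prod_eq_one, one_mul]
    · intro v hv
      rw [Finset.mem_sdiff] at hv
      unfold chi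
      rw [if_neg, sub_zero]
      intro h4
      apply hv.2
      rw [← h, hmem]
      exact ⟨hv.1, h4⟩
    · intro v hv
      rw [← h, hmem] at hv
      unfold chi
      rw [if_pos hv.2]
  · rw [if_neg h]
    symm
    by_cases h4 : W ⊆ ful M σ s
    · obtain ⟨v, hv1, hv2⟩ : ∃ v ∈ ful M σ s, v ∉ W := by
        by_contra h5
        push Not at h5
        exact h (Finset.Subset.antisymm h5 h4)
      have hv3 := (hmem v).1 hv1
      have h6 : ∏ v ∈ nzr M \ W, (1 - chi M σ v s) = 0 := by
        refine Finset.prod_eq_zero (Finset.mem_sdiff.2 ⟨hv3.1, hv2⟩) ?_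
        unfold chi
        rw [if_pos hv3.2, sub_self]
      rw [h6, mul_zero]
    · rw [Finset.not_subset] at h4
      obtain ⟨v, hv1, hv2⟩ := h4
      have h6 : ∏ v ∈ W, chi M σ v s = 0 := by
        refine Finset.prod_eq_zero hv1 ?_
        unfold chi
        rw [if_neg]
        intro h7
        exact hv2 ((hmem v).2 ⟨hW hv1, h7⟩)
      rw [h6, zero_mul]

/-- the weighted sum of a bounded function of the set of the full classes -/
theorem sum_bound (w : E → Bool → ℂ) (h1 : ∀ c, w c true + w c false = 1)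
    (h2 : ∀ c b, ‖w c b‖ = 1) (h : Finset (E → ZMod 2) → ℂ) (K : ℝ) (hK : ∀ W, ‖h W‖ ≤ K) :
    ‖∑ s : E → Bool, (∏ c, w c (s c)) * h (ful M σ s)‖ ≤ K * 3 ^ (nzr M).card := by
  classical
  have h3 : ∀ s, h (ful M σ s) = ∑ W ∈ (nzr M).powerset, h W *
      ∑ T ∈ (nzr M \ W).powerset, (-1) ^ T.card * ∏ v ∈ W ∪ T, chi M σ v s := by
    intro s
    have h4 : ∑ W ∈ (nzr M).powerset, h W *
        ∑ T ∈ (nzr M \ W).powerset, (-1) ^ T.card * ∏ v ∈ W ∪ T, chi M σ v s =
        ∑ W ∈ (nzr M).powerset, if ful M σ s = W then h W else 0 := by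
      refine Finset.sum_congr rfl fun W hW => ?_
      rw [← ind_ful M σ s W hW]
      split_ifs
      · rw [mul_one]
      · rw [mul_zero]
    rw [h4, Finset.sum_ite_eq, if_pos (ful_mem M σ s)]
  have h4 : ∑ s : E → Bool, (∏ c, w c (s c)) * h (ful M σ s) =
      ∑ W ∈ (nzr M).powerset, ∑ T ∈ (nzr M \ W).powerset,
        h W * ((-1) ^ T.card * ∑ s : E → Bool, (∏ c, w c (s c)) * ∏ v ∈ W ∪ T, chi M σ v s) := by
    rw [Finset.sum_congr rfl fun s _ => by rw [h3 s, Finset.mul_sum]]
    rw [Finset.sum_comm]
    refine Finset.sum_congr rfl fun W _ => ?_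
    simp only [Finset.mul_sum]
    rw [Finset.sum_comm]
    refine Finset.sum_congr rfl fun T _ => ?_
    refine Finset.sum_congr rfl fun s _ => ?_
    ring
  rw [h4]
  calc ‖∑ W ∈ (nzr M).powerset, ∑ T ∈ (nzr M \ W).powerset,
        h W * ((-1) ^ T.card * ∑ s : E → Bool, (∏ c, w c (s c)) * ∏ v ∈ W ∪ T, chi M σ v s)‖
      ≤ ∑ W ∈ (nzr M).powerset, ∑ _T ∈ (nzr M \ W).powerset, K := by
        refine (norm_sum_le _ _).trans (Finset.sum_le_sum fun W _ => ?_)
        refine (norm_sum_le _ _).trans (Finset.sum_le_sum fun T _ => ?_)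
        rw [norm_mul, norm_mul, sum_chi M σ w h1 h2, mul_one, norm_pow, norm_neg, norm_one,
          one_pow, mul_one]
        exact hK W
    _ = K * ∑ W ∈ (nzr M).powerset, (1 : ℝ) ^ W.card * 2 ^ ((nzr M).card - W.card) := by
        rw [Finset.mul_sum]
        refine Finset.sum_congr rfl fun W hW => ?_
        rw [Finset.sum_const, Finset.card_powerset,
          Finset.card_sdiff_of_subset (Finset.mem_powerset.1 hW), one_pow, one_mul, nsmul_eq_mul]
        push_cast
        ring
    _ = K * 3 ^ (nzr M).card := by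
        rw [Finset.sum_pow_mul_eq_add_pow]
        norm_num

end Pool.Agent.SLAB
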