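import Mathlib
import Pool.Agent.SLAB.Sum

/-!
# SLAB: the change of the corank if some classes become full
-/

set_option autoImplicit false
set_option linter.unusedSectionVars false

open Module

namespace Pool.Agent.SLAB

variable {E : Type} [Fintype E] [DecidableEq E] (M : Matrix E E (ZMod 2))

/-- some more diagonal entries -/
theorem ck_diff (B R : Finset E) (hd : Disjoint B R) :
    ck M B ≤ ck M (B ∪ R) + R.card ∧ ck M (B ∪ R) ≤ ck M B + R.card := by
  classical
  obtain ⟨D, hD⟩ : ∃ D : Matrix E E (ZMod 2),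
      D = Matrix.diagonal fun c => if c ∈ R then (1 : ZMod 2) else 0 := ⟨_, rfl⟩
  have hr : ∀ B : Finset E, (NB M B).rank + ck M B = Fintype.card E := by
    intro B
    unfold Matrix.rank ck
    rw [LinearMap.finrank_range_add_finrank_ker, finrank_fintype_fun_eq_card]
  have h2 : D.rank = R.card := by
    rw [hD, Matrix.rank_diagonal, Fintype.card_subtype]
    congr 1
    ext c
    rw [Finset.mem_filter]
    constructor
    · rintro ⟨_, h⟩
      by_contra h3
      rw [if_neg h3] at h
      exact h rfl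
    · intro h
      refine ⟨Finset.mem_univ _, ?_⟩
      rw [if_pos h]
      exact one_ne_zero
  have h3 : NB M (B ∪ R) = NB M B + D := by
    unfold NB
    rw [hD, add_assoc, Matrix.diagonal_add]
    congr 2
    funext c
    by_cases h4 : c ∈ B
    · have h5 : c ∉ R := fun h6 => (Finset.disjoint_left.1 hd) h4 h6
      rw [if_pos (Finset.mem_union_left _ h4), if_pos h4, if_neg h5, add_zero]
    · by_cases h5 : c ∈ R
      · rw [if_pos (Finset.mem_union_right _ h5), if_neg h4, if_pos h5, zero_add]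
      · rw [if_neg (by rw [Finset.mem_union, not_or]; exact ⟨h4, h5⟩), if_neg h4, if_neg h5,
          add_zero]
  have h4 : NB M B = NB M (B ∪ R) + D := by
    rw [h3]
    ext i j
    rw [Matrix.add_apply, Matrix.add_apply, add_assoc, CharTwo.add_self_eq_zero, add_zero]
  have h5 : (NB M (B ∪ R)).rank ≤ (NB M B).rank + D.rank := by
    rw [h3]
    exact rank_add _ _
  have h6 : (NB M B).rank ≤ (NB M (B ∪ R)).rank + D.rank := by
    calc (NB M B).rank = (NB M (B ∪ R) + D).rank := by rw [← h4]
      _ ≤ _ := rank_add _ _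
  have h7 := hr B
  have h8 := hr (B ∪ R)
  omega

/-- some more full classes -/
theorem ck_full (hM : ∀ i j, M i j = M j i) (K W : Finset (E → ZMod 2)) (hW : W ⊆ nzr M)
    (hd : Disjoint K W) :
    ck M (crs M K) + (crs M K).card ≤ ck M (crs M (K ∪ W)) + (crs M (K ∪ W)).card ∧
      ck M (crs M (K ∪ W)) + (crs M (K ∪ W)).card ≤
        ck M (crs M K) + (crs M K).card + 2 * W.card := by
  classical
  have hrep : ∀ v ∈ W, ∃ c, M c = v := by
    intro v hv
    have h1 := hW hv
    unfold nzr at h1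
    obtain ⟨c, -, hc⟩ := Finset.mem_image.1 (Finset.mem_of_mem_erase h1)
    exact ⟨c, hc⟩
  obtain ⟨R, hR1, hR2, hR3⟩ : ∃ R : Finset E, R.card ≤ W.card ∧ (∀ c ∈ R, M c ∈ W) ∧
      ∀ v ∈ W, ∃ c ∈ R, M c = v := by
    choose rep hrep' using hrep
    refine ⟨W.attach.image fun v => rep v.1 v.2, ?_, ?_, ?_⟩
    · refine Finset.card_image_le.trans ?_
      rw [Finset.card_attach]
    · intro c hc
      obtain ⟨v, _, rfl⟩ := Finset.mem_image.1 hc
      rw [hrep' v.1 v.2]
      exact v.2
    · intro v hv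
      exact ⟨rep v hv, Finset.mem_image.2 ⟨⟨v, hv⟩, Finset.mem_attach _ _, rfl⟩, hrep' v hv⟩
  have hmem : ∀ (Z : Finset (E → ZMod 2)) c, c ∈ crs M Z ↔ M c ∈ Z := by
    intro Z c
    unfold crs
    rw [Finset.mem_filter]
    exact ⟨fun h => h.2, fun h => ⟨Finset.mem_univ _, h⟩⟩
  obtain ⟨B, hB⟩ : ∃ B, B = crs M (K ∪ W) \ R := ⟨_, rfl⟩
  have hRs : R ⊆ crs M (K ∪ W) := by
    intro c hc
    rw [hmem]
    exact Finset.mem_union_right _ (hR2 c hc)
  have h1 : ck M B + B.card = ck M (crs M K) + (crs M K).card := by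
    refine ck_chain M hM ?_ ?_
    · intro c hc
      rw [hmem] at hc
      rw [hB, Finset.mem_sdiff, hmem]
      exact ⟨Finset.mem_union_left _ hc, fun h2 => (Finset.disjoint_left.1 hd) hc (hR2 c h2)⟩
    · intro c hc hcK
      right
      rw [hmem] at hcK
      rw [hB, Finset.mem_sdiff, hmem, Finset.mem_union] at hc
      have h2 : M c ∈ W := hc.1.resolve_left hcK
      obtain ⟨c', h3, h4⟩ := hR3 _ h2
      refine ⟨c', ?_, h4⟩
      rw [hB, Finset.mem_sdiff]
      exact fun h5 => h5.2 h3
  have h2 : B ∪ R = crs M (K ∪ W) := by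
    rw [hB]
    exact Finset.sdiff_union_of_subset hRs
  have h3 : Disjoint B R := by
    rw [hB]
    exact Finset.sdiff_disjoint
  have h4 := ck_diff M B R h3
  have h5 := Finset.card_union_of_disjoint h3
  rw [h2] at h4 h5
  omega

end Pool.Agent.SLAB
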