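import Mathlib
import Pool.Agent.SLAB.Sum
import Pool.Agent.UNI.Fin

/-!
# SLAB: the derivative at `A = exp (i π / 3)`

`A0 ^ 2 = A0 - 1`.  At this value of `A` the loop value `- A ^ 2 - A ^ (- 2)` is `1`.
-/

set_option autoImplicit false
set_option linter.unusedSectionVars false

open Module LaurentPolynomial

namespace Pool.Agent.SLAB

/-- the value of `A` -/
noncomputable def A0 : ℂ := ⟨1 / 2, Real.sqrt 3 / 2⟩

theorem A0_sq : A0 ^ 2 = A0 - 1 := by
  have h : Real.sqrt 3 * Real.sqrt 3 = 3 := Real.mul_self_sqrt (by norm_num)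
  unfold A0
  apply Complex.ext
  · rw [pow_two, Complex.mul_re, Complex.sub_re, Complex.one_re]
    linear_combination (-1 / 4) * h
  · rw [pow_two, Complex.mul_im, Complex.sub_im, Complex.one_im]
    ring

theorem A0_cube : A0 ^ 3 = -1 := by
  linear_combination (A0 + 1) * A0_sq

theorem A0_ne : A0 ≠ 0 := by
  intro h
  have h1 := A0_cube
  rw [h] at h1
  norm_num at h1

theorem A0_norm : ‖A0‖ = 1 := by
  have h1 : ‖A0‖ ^ 3 = 1 := by
    rw [← norm_pow, A0_cube, norm_neg, norm_one]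
  exact (pow_eq_one_iff_of_nonneg (norm_nonneg _) (by norm_num)).1 h1

theorem A0_inv : A0⁻¹ = 1 - A0 := by
  rw [inv_eq_iff_eq_inv, eq_comm, inv_eq_of_mul_eq_one_right]
  linear_combination (-1 : ℂ) * A0_sq

/-- the unit `A0 (1 + ε)` -/
noncomputable def uA : (DualNumber ℂ)ˣ where
  val := TrivSqZeroExt.inl A0 * (1 + DualNumber.eps)
  inv := TrivSqZeroExt.inl A0⁻¹ * (1 - DualNumber.eps)
  val_inv := by
    have h1 : (TrivSqZeroExt.inl A0 : DualNumber ℂ) * TrivSqZeroExt.inl A0⁻¹ = 1 := by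
      rw [← TrivSqZeroExt.inl_mul, mul_inv_cancel₀ A0_ne, TrivSqZeroExt.inl_one]
    have h2 : (DualNumber.eps : DualNumber ℂ) * DualNumber.eps = 0 := DualNumber.eps_mul_eps
    linear_combination h1 * (1 - DualNumber.eps * DualNumber.eps) - h2
  inv_val := by
    have h1 : (TrivSqZeroExt.inl A0 : DualNumber ℂ) * TrivSqZeroExt.inl A0⁻¹ = 1 := by
      rw [← TrivSqZeroExt.inl_mul, mul_inv_cancel₀ A0_ne, TrivSqZeroExt.inl_one]
    have h2 : (DualNumber.eps : DualNumber ℂ) * DualNumber.eps = 0 := DualNumber.eps_mul_eps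
    linear_combination h1 * (1 - DualNumber.eps * DualNumber.eps) - h2

/-- `x + y ε` -/
noncomputable def dn (x y : ℂ) : DualNumber ℂ := TrivSqZeroExt.inl x + TrivSqZeroExt.inr y

theorem dn_fst (x y : ℂ) : (dn x y).fst = x := by
  unfold dn
  rw [TrivSqZeroExt.fst_add, TrivSqZeroExt.fst_inl, TrivSqZeroExt.fst_inr, add_zero]

theorem dn_snd (x y : ℂ) : (dn x y).snd = y := by
  unfold dn
  rw [TrivSqZeroExt.snd_add, TrivSqZeroExt.snd_inl, TrivSqZeroExt.snd_inr, zero_add]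

theorem dn_mul (x y x' y' : ℂ) : dn x y * dn x' y' = dn (x * x') (x * y' + x' * y) := by
  apply TrivSqZeroExt.ext
  · rw [TrivSqZeroExt.fst_mul, dn_fst, dn_fst, dn_fst]
  · rw [TrivSqZeroExt.snd_mul, dn_fst, dn_fst, dn_snd, dn_snd, dn_snd, op_smul_eq_mul,
      smul_eq_mul]
    ring

theorem dn_add (x y x' y' : ℂ) : dn x y + dn x' y' = dn (x + x') (y + y') := by
  apply TrivSqZeroExt.ext
  · rw [TrivSqZeroExt.fst_add, dn_fst, dn_fst, dn_fst]
  · rw [TrivSqZeroExt.snd_add, dn_snd, dn_snd, dn_snd]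

theorem dn_one : dn 1 0 = 1 := by
  apply TrivSqZeroExt.ext
  · rw [dn_fst, TrivSqZeroExt.fst_one]
  · rw [dn_snd, TrivSqZeroExt.snd_one]

theorem dn_zero : dn 0 0 = 0 := by
  apply TrivSqZeroExt.ext
  · rw [dn_fst, TrivSqZeroExt.fst_zero]
  · rw [dn_snd, TrivSqZeroExt.snd_zero]

theorem dn_neg (x y : ℂ) : -dn x y = dn (-x) (-y) := by
  apply TrivSqZeroExt.ext
  · rw [TrivSqZeroExt.fst_neg, dn_fst, dn_fst]
  · rw [TrivSqZeroExt.snd_neg, dn_snd, dn_snd]

theorem dn_sum {ι : Type} (S : Finset ι) (x y : ι → ℂ) :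
    ∑ i ∈ S, dn (x i) (y i) = dn (∑ i ∈ S, x i) (∑ i ∈ S, y i) := by
  classical
  refine Finset.induction_on S ?_ ?_
  · rw [Finset.sum_empty, Finset.sum_empty, Finset.sum_empty, dn_zero]
  · intro i S hi ih
    rw [Finset.sum_insert hi, Finset.sum_insert hi, Finset.sum_insert hi, ih, dn_add]

theorem uA_val : (uA : DualNumber ℂ) = dn A0 A0 := by
  apply TrivSqZeroExt.ext
  · change (TrivSqZeroExt.inl A0 * (1 + DualNumber.eps) : DualNumber ℂ).fst = _
    rw [TrivSqZeroExt.fst_mul, dn_fst, TrivSqZeroExt.fst_inl, TrivSqZeroExt.fst_add,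
      TrivSqZeroExt.fst_one, DualNumber.fst_eps, add_zero, mul_one]
  · change (TrivSqZeroExt.inl A0 * (1 + DualNumber.eps) : DualNumber ℂ).snd = _
    rw [TrivSqZeroExt.snd_mul, dn_snd, TrivSqZeroExt.fst_inl, TrivSqZeroExt.snd_inl,
      TrivSqZeroExt.snd_add, TrivSqZeroExt.snd_one, DualNumber.snd_eps, zero_add, smul_zero,
      add_zero, smul_eq_mul, mul_one]

theorem uA_inv : ((uA⁻¹ : (DualNumber ℂ)ˣ) : DualNumber ℂ) = dn A0⁻¹ (-A0⁻¹) := by
  have h1 : dn A0 A0 * dn A0⁻¹ (-A0⁻¹) = 1 := by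
    rw [dn_mul, mul_inv_cancel₀ A0_ne, ← dn_one]
    congr 1
    ring
  rw [← uA_val] at h1
  exact (Units.eq_inv_of_mul_eq_one_left h1).symm

theorem uA_zpow (k : ℤ) : ((uA ^ k : (DualNumber ℂ)ˣ) : DualNumber ℂ) = dn (A0 ^ k) (k * A0 ^ k) := by
  induction k using Int.induction_on with
  | zero =>
    rw [zpow_zero, zpow_zero, Int.cast_zero, zero_mul, dn_one, Units.val_one]
  | succ i ih =>
    rw [zpow_add_one, Units.val_mul, ih, uA_val, dn_mul, zpow_add_one₀ A0_ne]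
    congr 1
    push_cast
    ring
  | pred i ih =>
    rw [zpow_sub_one, Units.val_mul, ih, uA_inv, dn_mul, zpow_sub_one₀ A0_ne]
    congr 1
    push_cast
    ring

/-- the evaluation -/
noncomputable def evA : LaurentPolynomial ℤ →+* DualNumber ℂ :=
  LaurentPolynomial.eval₂ (Int.castRingHom (DualNumber ℂ)) uA

theorem evA_T (k : ℤ) : evA (T k) = dn (A0 ^ k) (k * A0 ^ k) := by
  unfold evA
  rw [eval₂_T, uA_zpow]

/-- the number `i √3` -/
noncomputable def s3 : ℂ := 2 * A0 - 1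

theorem s3_sq : s3 ^ 2 = -3 := by
  unfold s3
  linear_combination 4 * A0_sq

theorem s3_norm : ‖s3‖ = Real.sqrt 3 := by
  have h1 : ‖s3‖ ^ 2 = 3 := by
    rw [← norm_pow, s3_sq, norm_neg]
    norm_num
  rw [← h1, Real.sqrt_sq (norm_nonneg _)]

/-- the loop value -/
theorem evA_loop (m : ℕ) : evA ((-T 2 - T (-2)) ^ m) = dn 1 (m * (-2 * s3)) := by
  have h0 : evA (-T 2 - T (-2)) = dn 1 (-2 * s3) := by
    rw [map_sub, map_neg, evA_T, evA_T, sub_eq_add_neg, dn_neg, dn_neg, dn_add]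
    have h1 : A0 ^ (2 : ℤ) = A0 - 1 := by
      rw [← A0_sq]
      norm_cast
    have h2 : A0 ^ (-2 : ℤ) = -A0 := by
      have h3 : A0 ^ (-2 : ℤ) = (A0⁻¹) ^ 2 := by
        rw [zpow_neg, inv_pow]
        norm_cast
      rw [h3, A0_inv]
      linear_combination A0_sq
    rw [h1, h2]
    unfold s3
    congr 1
    · ring
    · push_cast
      ring
  rw [map_pow, h0]
  induction m with
  | zero => rw [pow_zero, Nat.cast_zero, zero_mul, dn_one]
  | succ m ih =>
    rw [pow_succ, ih, dn_mul]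
    congr 1
    · ring
    · push_cast
      ring

end Pool.Agent.SLAB
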