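import Mathlib
import Pool.Agent.SLAB.Dual
import Pool.Agent.SPT.Fin

/-!
# SLAB: the derivative of the normalized bracket at `A = exp (i π / 3)`
-/

set_option autoImplicit false
set_option linter.unusedSectionVars false

open Module LaurentPolynomial Submodule
open Pool.Agent.Helper16.Knotoid Pool.Agent.UNI

namespace Pool.Agent.SLAB

variable {n : ℕ}

/-- the weight of a smoothing -/
noncomputable def wt (b : Bool) : ℂ := if b then A0 else A0⁻¹

theorem wt_sum : wt true + wt false = 1 := by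
  unfold wt
  rw [if_pos rfl, if_neg (by decide), A0_inv]
  ring

theorem wt_norm (b : Bool) : ‖wt b‖ = 1 := by
  unfold wt
  split_ifs
  · exact A0_norm
  · rw [norm_inv, A0_norm, inv_one]

theorem sum_wt : ∑ s : Fin n → Bool, ∏ c, wt (s c) = 1 := by
  have h1 : ∑ s : Fin n → Bool, ∏ c, wt (s c) = ∏ _c : Fin n, ∑ b : Bool, wt b := by
    rw [Finset.prod_univ_sum, Fintype.piFinset_univ]
  rw [h1]
  refine Finset.prod_eq_one fun c _ => ?_
  rw [Fintype.sum_bool, wt_sum]

/-- the mean of a sum over the crossings -/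
theorem sum_lin (φ : Fin n → Bool → ℂ) :
    ∑ s : Fin n → Bool, (∏ c, wt (s c)) * ∑ c, φ c (s c) = ∑ c, ∑ b, wt b * φ c b := by
  classical
  simp only [Finset.mul_sum]
  rw [Finset.sum_comm]
  refine Finset.sum_congr rfl fun c _ => ?_
  have h1 : ∀ s : Fin n → Bool, (∏ d, wt (s d)) * φ c (s c) =
      ∏ d, (wt (s d) * if d = c then φ c (s d) else 1) := by
    intro s
    rw [Finset.prod_mul_distrib]
    congr 1
    rw [Finset.prod_ite_eq' Finset.univ c (fun d => φ c (s d)), if_pos (Finset.mem_univ _)]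
  have h2 : ∑ s : Fin n → Bool, (∏ d, wt (s d)) * φ c (s c) =
      ∏ d, ∑ b : Bool, (wt b * if d = c then φ c b else 1) := by
    rw [Finset.prod_univ_sum, Fintype.piFinset_univ]
    exact Finset.sum_congr rfl fun s _ => h1 s
  rw [h2, Finset.prod_eq_single c]
  · refine Finset.sum_congr rfl fun b _ => ?_
    rw [if_pos rfl]
  · intro d _ hd
    rw [Fintype.sum_bool, if_neg hd, if_neg hd, mul_one, mul_one, wt_sum]
  · intro h
    exact absurd (Finset.mem_univ c) h

theorem ck_dif (D : GaussDiagram n) (σ s : Fin n → Bool) :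
    D.comps s - 1 = ck (D.gmat σ) (dif σ s) := by
  rw [D.comps_eq, gmat_SM D σ s, Nat.add_sub_cancel_left]
  unfold ck
  have h1 : SM (D.gmat σ) σ s = NB (D.gmat σ) (dif σ s) := by
    unfold SM NB
    congr 2
    funext c
    unfold dif
    by_cases h : s c = σ c
    · rw [if_pos h, if_neg]
      rw [Finset.mem_filter]
      exact fun h2 => h2.2 h
    · rw [if_neg h, if_pos]
      rw [Finset.mem_filter]
      exact ⟨Finset.mem_univ _, h⟩
  rw [h1]

/-- the deviation of the corank -/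
noncomputable def gg (M : Matrix (Fin n) (Fin n) (ZMod 2)) (B : Finset (Fin n)) : ℂ :=
  (((ck M B + B.card : ℕ) : ℂ) - n)

theorem evA_bracket (D : GaussDiagram n) (σ : Fin n → Bool) :
    evA D.bracket = dn 1 (3 * ((∑ c, if σ c then (1 : ℤ) else -1 : ℤ) : ℂ) -
      2 * s3 * ∑ s : Fin n → Bool, (∏ c, wt (s c)) * gg (D.gmat σ) (dif σ s)) := by
  have h1 : evA D.bracket = dn (∑ s : Fin n → Bool, ∏ c, wt (s c))
      (∑ s : Fin n → Bool, (∏ c, wt (s c)) *
        ((GaussDiagram.stateSign s : ℤ) - 2 * s3 * (D.comps s - 1 : ℕ) : ℂ)) := by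
    unfold GaussDiagram.bracket
    rw [map_sum, ← dn_sum]
    refine Finset.sum_congr rfl fun s _ => ?_
    have h2 : A0 ^ (GaussDiagram.stateSign s) = ∏ c, wt (s c) :=
      zpow_ssum Finset.univ A0 A0_ne s
    rw [map_mul, evA_T, evA_loop, dn_mul, h2]
    congr 1
    · ring
    · ring
  rw [h1, sum_wt]
  congr 1
  have h3 : ∀ s : Fin n → Bool,
      ((GaussDiagram.stateSign s : ℤ) - 2 * s3 * (D.comps s - 1 : ℕ) : ℂ) =
      (∑ c, (((if s c then (1 : ℂ) else -1) + 2 * s3 * (if s c = σ c then 0 else 1)) - 2 * s3)) -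
        2 * s3 * gg (D.gmat σ) (dif σ s) := by
    intro s
    rw [ck_dif D σ s]
    unfold gg GaussDiagram.stateSign
    have h4 : ((dif σ s).card : ℂ) = ∑ c, if s c = σ c then (0 : ℂ) else 1 := by
      unfold dif
      rw [Finset.card_filter]
      push_cast
      refine Finset.sum_congr rfl fun c _ => ?_
      by_cases h : s c = σ c <;> simp [h]
    rw [Finset.sum_sub_distrib, Finset.sum_add_distrib, ← Finset.mul_sum, ← h4, Finset.sum_const,
      Finset.card_univ, Fintype.card_fin, nsmul_eq_mul]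
    push_cast
    ring
  have h5 : ∑ s : Fin n → Bool, (∏ c, wt (s c)) *
        ((GaussDiagram.stateSign s : ℤ) - 2 * s3 * (D.comps s - 1 : ℕ) : ℂ) =
      (∑ s : Fin n → Bool, (∏ c, wt (s c)) *
        ∑ c, (((if s c then (1 : ℂ) else -1) + 2 * s3 * (if s c = σ c then 0 else 1)) - 2 * s3)) -
      2 * s3 * ∑ s : Fin n → Bool, (∏ c, wt (s c)) * gg (D.gmat σ) (dif σ s) := by
    rw [Finset.mul_sum, ← Finset.sum_sub_distrib]
    refine Finset.sum_congr rfl fun s _ => ?_
    rw [h3 s]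
    ring
  rw [h5, sum_lin (fun c b =>
    (((if b then (1 : ℂ) else -1) + 2 * s3 * (if b = σ c then 0 else 1)) - 2 * s3))]
  congr 1
  rw [Int.cast_sum, Finset.mul_sum]
  refine Finset.sum_congr rfl fun c _ => ?_
  rw [Fintype.sum_bool]
  unfold wt
  rw [A0_inv]
  unfold s3
  cases σ c
  · simp
    linear_combination 4 * A0_sq
  · simp
    linear_combination (-4 : ℂ) * A0_sq

theorem evA_sign (w : ℤ) : evA ((-1) ^ w.natAbs * T (-3 * w)) = dn 1 (-3 * w) := by
  have h1 : ((-1 : LaurentPolynomial ℤ)) ^ w.natAbs = C ((-1) ^ w.natAbs) := by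
    rw [map_pow, map_neg, map_one]
  have h2 : evA ((-1) ^ w.natAbs) = dn ((-1) ^ w.natAbs) 0 := by
    have h3 : (-1 : DualNumber ℂ) = dn (-1) 0 := by
      rw [← dn_one, dn_neg, neg_zero]
    rw [map_pow, map_neg, map_one, h3]
    induction w.natAbs with
    | zero => rw [pow_zero, pow_zero, dn_one]
    | succ m ih =>
      rw [pow_succ, ih, dn_mul, pow_succ]
      congr 1
      ring
  have h4 : (-1 : ℂ) ^ w.natAbs * A0 ^ (-3 * w) = 1 := by
    have h5 : A0 ^ (-3 * w) = (-1 : ℂ) ^ (-w) := by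
      have h6 : (-3 * w : ℤ) = 3 * (-w) := by ring
      rw [h6, zpow_mul]
      congr 1
      rw [← A0_cube]
      norm_cast
    rw [h5]
    rcases Int.even_or_odd w with h | h
    · rw [(Int.natAbs_even.2 h).neg_one_pow, (even_neg.2 h).neg_one_zpow, one_mul]
    · rw [(Int.natAbs_odd.2 h).neg_one_pow, (odd_neg.2 h).neg_one_zpow]
      norm_num
  rw [map_mul, h2, evA_T, dn_mul, h4]
  congr 1
  push_cast
  rw [mul_zero, add_zero, mul_left_comm, h4, mul_one]

/-- the sum of the `|i a_i|` -/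
noncomputable def moment (f : LaurentPolynomial ℤ) : ℤ := ∑ i ∈ f.coeff.support, |i * f.coeff i|

theorem snd_bound (f : LaurentPolynomial ℤ) : ‖(evA f).snd‖ ≤ (moment f : ℝ) := by
  have h1 : evA f = ∑ i ∈ f.coeff.support, dn ((f.coeff i : ℂ) * A0 ^ i)
      ((f.coeff i : ℂ) * (i * A0 ^ i)) := by
    conv_lhs => rw [Pool.Agent.SPT.sum_coeff f]
    rw [map_sum]
    refine Finset.sum_congr rfl fun i _ => ?_
    rw [map_mul, evA_T]
    have h2 : evA (C (f.coeff i)) = dn (f.coeff i : ℂ) 0 := by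
      unfold evA
      rw [eval₂_C, eq_intCast]
      apply TrivSqZeroExt.ext
      · rw [dn_fst, TrivSqZeroExt.fst_intCast]
      · rw [dn_snd, TrivSqZeroExt.snd_intCast]
    rw [h2, dn_mul]
    congr 1
    ring
  rw [h1, dn_sum, dn_snd]
  refine (norm_sum_le _ _).trans ?_
  unfold moment
  push_cast
  refine Finset.sum_le_sum fun i _ => ?_
  rw [norm_mul, norm_mul, norm_zpow, A0_norm, one_zpow, mul_one, Complex.norm_intCast,
    Complex.norm_intCast, abs_mul, mul_comm]

theorem rank_nzr (M : Matrix (Fin n) (Fin n) (ZMod 2)) : M.rank ≤ (nzr M).card := by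
  classical
  rw [Matrix.rank_eq_finrank_span_row]
  have h1 : span (ZMod 2) (Set.range M.row) ≤
      span (ZMod 2) ((nzr M : Finset (Fin n → ZMod 2)) : Set (Fin n → ZMod 2)) := by
    rw [span_le]
    rintro _ ⟨i, rfl⟩
    by_cases h : M i = 0
    · have h2 : M.row i = 0 := h
      rw [h2]
      exact Submodule.zero_mem _
    · refine subset_span (Finset.mem_coe.2 ?_)
      unfold nzr
      exact Finset.mem_erase.2 ⟨h, Finset.mem_image_of_mem _ (Finset.mem_univ i)⟩
  exact (Submodule.finrank_mono h1).trans (finrank_span_finset_le_card _)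

/-- the first order term of the normalized bracket at `A = exp (i π / 3)` -/
theorem slab_norm (D : GaussDiagram n) (σ : Fin n → Bool) :
    ‖(evA D.normalizedBracket).snd + (3 * (D.writhe - ∑ c, if σ c then (1 : ℤ) else -1 : ℤ) : ℂ)‖ ≤
      4 * (nzr (D.gmat σ)).card * 3 ^ (nzr (D.gmat σ)).card := by
  classical
  obtain ⟨t, ht⟩ : ∃ t : ℤ, t = ∑ c, if σ c then (1 : ℤ) else -1 := ⟨_, rfl⟩
  obtain ⟨k, hk⟩ : ∃ k, k = (nzr (D.gmat σ)).card := ⟨_, rfl⟩
  obtain ⟨G, hG⟩ : ∃ G : ℂ, G = ∑ s : Fin n → Bool, (∏ c, wt (s c)) *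
      gg (D.gmat σ) (dif σ s) := ⟨_, rfl⟩
  have h1 : (evA D.normalizedBracket).snd = 3 * (t : ℂ) - 2 * s3 * G - 3 * (D.writhe : ℂ) := by
    unfold GaussDiagram.normalizedBracket
    rw [map_mul, evA_sign, evA_bracket D σ, dn_mul, dn_snd, ← ht, ← hG]
    ring
  have hGb : ‖G‖ ≤ (k : ℝ) * 3 ^ k := by
    have h2 : ∀ s : Fin n → Bool, gg (D.gmat σ) (dif σ s) =
        gg (D.gmat σ) (crs (D.gmat σ) (ful (D.gmat σ) σ s)) := by
      intro s
      unfold gg
      rw [ck_ful (D.gmat σ) σ (D.gmat_symm σ) s]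
    rw [hG, Finset.sum_congr rfl fun s _ => by rw [h2 s], hk]
    refine sum_bound (D.gmat σ) σ (fun _ => wt) (fun _ => wt_sum) (fun _ => wt_norm)
      (fun W => gg (D.gmat σ) (crs (D.gmat σ) W)) _ ?_
    intro W
    obtain ⟨h3, h4⟩ := ck_bound (D.gmat σ) (crs (D.gmat σ) W)
    have h5 := rank_nzr (D.gmat σ)
    rw [Fintype.card_fin] at h3 h4
    unfold gg
    have h6 : (((ck (D.gmat σ) (crs (D.gmat σ) W) + (crs (D.gmat σ) W).card : ℕ) : ℂ) - n) =
        ((((ck (D.gmat σ) (crs (D.gmat σ) W) + (crs (D.gmat σ) W).card : ℕ) : ℤ) - n : ℤ) : ℂ) := by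
      push_cast
      ring
    rw [h6, Complex.norm_intCast]
    have h7 : |((((ck (D.gmat σ) (crs (D.gmat σ) W) + (crs (D.gmat σ) W).card : ℕ) : ℤ) - n : ℤ))| ≤
        ((nzr (D.gmat σ)).card : ℤ) := by
      rw [abs_le]
      constructor <;> omega
    exact_mod_cast h7
  rw [← ht, ← hk]
  have h8 : (evA D.normalizedBracket).snd + (3 * (D.writhe - t : ℤ) : ℂ) = -(2 * s3 * G) := by
    rw [h1]
    push_cast
    ring
  rw [h8, norm_neg, norm_mul, norm_mul, s3_norm]
  have h13 : Real.sqrt 3 ≤ 2 := by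
    rw [Real.sqrt_le_left (by norm_num)]
    norm_num
  have h14 : ‖(2 : ℂ)‖ = 2 := by norm_num
  rw [h14]
  have h15 : 2 * Real.sqrt 3 * ‖G‖ ≤ 2 * 2 * ((k : ℝ) * 3 ^ k) := by
    refine mul_le_mul ?_ hGb (norm_nonneg _) (by norm_num)
    linarith
  linarith

/-- **the slab**, for two states -/
theorem slab_pair {n' : ℕ} (D : GaussDiagram n) (σ : Fin n → Bool) (D' : GaussDiagram n')
    (σ' : Fin n' → Bool) :
    3 * |(D.writhe - ∑ c, if σ c then (1 : ℤ) else -1) -
        (D'.writhe - ∑ c, if σ' c then (1 : ℤ) else -1)| ≤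
      moment (D.normalizedBracket - D'.normalizedBracket) +
        4 * (nzr (D.gmat σ)).card * 3 ^ (nzr (D.gmat σ)).card +
        4 * (nzr (D'.gmat σ')).card * 3 ^ (nzr (D'.gmat σ')).card := by
  classical
  obtain ⟨u, hu⟩ : ∃ u : ℤ, u = D.writhe - ∑ c, if σ c then (1 : ℤ) else -1 := ⟨_, rfl⟩
  obtain ⟨u', hu'⟩ : ∃ u' : ℤ, u' = D'.writhe - ∑ c, if σ' c then (1 : ℤ) else -1 := ⟨_, rfl⟩
  have h1 := slab_norm D σ
  have h2 := slab_norm D' σ'
  have h3 := snd_bound (D.normalizedBracket - D'.normalizedBracket)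
  rw [map_sub, TrivSqZeroExt.snd_sub] at h3
  rw [← hu] at h1 ⊢
  rw [← hu'] at h2 ⊢
  have h4 : (3 * (u - u' : ℤ) : ℂ) = ((evA D.normalizedBracket).snd + 3 * (u : ℂ)) -
      ((evA D'.normalizedBracket).snd + 3 * (u' : ℂ)) -
      ((evA D.normalizedBracket).snd - (evA D'.normalizedBracket).snd) := by
    push_cast
    ring
  have h5 : ‖(3 * (u - u' : ℤ) : ℂ)‖ = 3 * |((u - u' : ℤ) : ℝ)| := by
    rw [norm_mul, Complex.norm_intCast]
    norm_num
  have h6 : ‖(3 * (u - u' : ℤ) : ℂ)‖ ≤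
      (moment (D.normalizedBracket - D'.normalizedBracket) : ℝ) +
        4 * (nzr (D.gmat σ)).card * 3 ^ (nzr (D.gmat σ)).card +
        4 * (nzr (D'.gmat σ')).card * 3 ^ (nzr (D'.gmat σ')).card := by
    rw [h4]
    refine (norm_sub_le _ _).trans ?_
    have h7 := norm_sub_le ((evA D.normalizedBracket).snd + 3 * (u : ℂ))
      ((evA D'.normalizedBracket).snd + 3 * (u' : ℂ))
    linarith
  rw [h5] at h6
  exact_mod_cast h6

/-- **the slab**, for a state -/
theorem slab_state (D : GaussDiagram n) (σ : Fin n → Bool) :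
    3 * |D.writhe - ∑ c, if σ c then (1 : ℤ) else -1| ≤
      moment D.normalizedBracket + 4 * (nzr (D.gmat σ)).card * 3 ^ (nzr (D.gmat σ)).card := by
  classical
  obtain ⟨u, hu⟩ : ∃ u : ℤ, u = D.writhe - ∑ c, if σ c then (1 : ℤ) else -1 := ⟨_, rfl⟩
  have h1 := slab_norm D σ
  have h3 := snd_bound D.normalizedBracket
  rw [← hu] at h1 ⊢
  have h4 : (3 * u : ℂ) = ((evA D.normalizedBracket).snd + 3 * (u : ℂ)) -
      (evA D.normalizedBracket).snd := by
    ring
  have h5 : ‖(3 * u : ℂ)‖ = 3 * |(u : ℝ)| := by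
    rw [norm_mul, Complex.norm_intCast]
    norm_num
  have h6 : ‖(3 * u : ℂ)‖ ≤ (moment D.normalizedBracket : ℝ) +
        4 * (nzr (D.gmat σ)).card * 3 ^ (nzr (D.gmat σ)).card := by
    rw [h4]
    refine (norm_sub_le _ _).trans ?_
    linarith
  rw [h5] at h6
  exact_mod_cast h6

end Pool.Agent.SLAB
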