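import Mathlib
import Pool.Agent.SLAB.Main

/-!
# SLAB: the imaginary part of the weighted sum

The weights of the classes are sixth roots of unity; they are real if the twist number is divisible
by `3`.
-/

set_option autoImplicit false
set_option linter.unusedSectionVars false

open Module LaurentPolynomial Submodule
open Pool.Agent.Helper16.Knotoid Pool.Agent.UNI

namespace Pool.Agent.SLAB

theorem A0_six : A0 ^ 6 = 1 := by
  have h : A0 ^ 6 = (A0 ^ 3) ^ 2 := by ring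
  rw [h, A0_cube]
  norm_num

theorem zp_mod (j : ℤ) : A0 ^ j = A0 ^ (j % 6) := by
  have h1 : j = 6 * (j / 6) + j % 6 := (Int.mul_ediv_add_emod j 6).symm
  have h2 : A0 ^ (6 : ℤ) = 1 := by
    rw [← A0_six]
    norm_cast
  conv_lhs => rw [h1, zpow_add₀ A0_ne, zpow_mul, h2, one_zpow, one_mul]

theorem zp_cases (j : ℤ) : (j % 6 = 0 ∧ A0 ^ j = 1) ∨ (j % 6 = 1 ∧ A0 ^ j = A0) ∨
    (j % 6 = 2 ∧ A0 ^ j = A0 - 1) ∨ (j % 6 = 3 ∧ A0 ^ j = -1) ∨ (j % 6 = 4 ∧ A0 ^ j = -A0) ∨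
    (j % 6 = 5 ∧ A0 ^ j = 1 - A0) := by
  have h0 := zp_mod j
  have h1 : j % 6 = 0 ∨ j % 6 = 1 ∨ j % 6 = 2 ∨ j % 6 = 3 ∨ j % 6 = 4 ∨ j % 6 = 5 := by omega
  rcases h1 with h | h | h | h | h | h
  · left
    rw [h, zpow_zero] at h0
    exact ⟨h, h0⟩
  · right; left
    rw [h, zpow_one] at h0
    exact ⟨h, h0⟩
  · right; right; left
    rw [h] at h0
    have h2 : A0 ^ (2 : ℤ) = A0 - 1 := by
      rw [← A0_sq]
      norm_cast
    exact ⟨h, h0.trans h2⟩
  · right; right; right; left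
    rw [h] at h0
    have h2 : A0 ^ (3 : ℤ) = -1 := by
      rw [← A0_cube]
      norm_cast
    exact ⟨h, h0.trans h2⟩
  · right; right; right; right; left
    rw [h] at h0
    have h2 : A0 ^ (4 : ℤ) = -A0 := by
      have h3 : A0 ^ (4 : ℤ) = A0 ^ 4 := by norm_cast
      rw [h3]
      linear_combination A0 * A0_cube
    exact ⟨h, h0.trans h2⟩
  · right; right; right; right; right
    rw [h] at h0
    have h2 : A0 ^ (5 : ℤ) = 1 - A0 := by
      have h3 : A0 ^ (5 : ℤ) = A0 ^ 5 := by norm_cast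
      rw [h3]
      linear_combination A0 ^ 2 * A0_cube - A0_sq
    exact ⟨h, h0.trans h2⟩

theorem zp_im (j : ℤ) : |(A0 ^ j).im| ≤ Real.sqrt 3 / 2 := by
  have hc : A0.im = Real.sqrt 3 / 2 := rfl
  have hp : 0 ≤ Real.sqrt 3 / 2 := by positivity
  rcases zp_cases j with h | h | h | h | h | h <;> rw [h.2]
  · rw [Complex.one_im, abs_zero]
    exact hp
  · rw [hc, abs_of_nonneg hp]
  · rw [Complex.sub_im, Complex.one_im, sub_zero, hc, abs_of_nonneg hp]
  · rw [Complex.neg_im, Complex.one_im, neg_zero, abs_zero]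
    exact hp
  · rw [Complex.neg_im, abs_neg, hc, abs_of_nonneg hp]
  · rw [Complex.sub_im, Complex.one_im, zero_sub, abs_neg, hc, abs_of_nonneg hp]

theorem zp_three (j : ℤ) (h3 : (3 : ℤ) ∣ j) : (A0 ^ j).im = 0 := by
  rcases zp_cases j with h | h | h | h | h | h
  · rw [h.2, Complex.one_im]
  · omega
  · omega
  · rw [h.2, Complex.neg_im, Complex.one_im, neg_zero]
  · omega
  · omega

theorem zp_six (j : ℤ) (h6 : (6 : ℤ) ∣ j) : A0 ^ j = 1 := by
  rcases zp_cases j with h | h | h | h | h | h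
  · exact h.2
  all_goals omega

theorem zp_prod {α : Type} [DecidableEq α] (U : Finset α) (t : α → ℤ) :
    ∏ v ∈ U, A0 ^ (-t v) = A0 ^ (-∑ v ∈ U, t v) := by
  refine Finset.induction_on U ?_ ?_
  · rw [Finset.prod_empty, Finset.sum_empty, neg_zero, zpow_zero]
  · intro v U hv ih
    rw [Finset.prod_insert hv, Finset.sum_insert hv, ih, neg_add, zpow_add₀ A0_ne]

/-- the number of the pairs of disjoint subsets -/
theorem pairs_count {α : Type} [DecidableEq α] (L : Finset α) :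
    ∑ W ∈ L.powerset, ∑ _T ∈ (L \ W).powerset, (1 : ℝ) = 3 ^ L.card := by
  have h1 : ∑ W ∈ L.powerset, ∑ _T ∈ (L \ W).powerset, (1 : ℝ) =
      ∑ W ∈ L.powerset, (1 : ℝ) ^ W.card * 2 ^ (L.card - W.card) := by
    refine Finset.sum_congr rfl fun W hW => ?_
    rw [Finset.sum_const, Finset.card_powerset,
      Finset.card_sdiff_of_subset (Finset.mem_powerset.1 hW), one_pow, one_mul, nsmul_eq_mul]
    push_cast
    ring
  rw [h1, Finset.sum_pow_mul_eq_add_pow]
  norm_num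

theorem pairs_three {α : Type} [DecidableEq α] (L L3 : Finset α) (h : L3 ⊆ L) :
    ∑ W ∈ L.powerset, ∑ T ∈ (L \ W).powerset, (if W ∪ T ⊆ L3 then (0 : ℝ) else 1) ≤
      3 ^ L.card - 3 ^ L3.card := by
  have h1 : ∑ W ∈ L.powerset, ∑ T ∈ (L \ W).powerset, (if W ∪ T ⊆ L3 then (0 : ℝ) else 1) =
      ∑ W ∈ L.powerset, ∑ _T ∈ (L \ W).powerset, (1 : ℝ) -
        ∑ W ∈ L.powerset, ∑ T ∈ (L \ W).powerset, (if W ∪ T ⊆ L3 then (1 : ℝ) else 0) := by
    rw [← Finset.sum_sub_distrib]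
    refine Finset.sum_congr rfl fun W _ => ?_
    rw [← Finset.sum_sub_distrib]
    refine Finset.sum_congr rfl fun T _ => ?_
    split_ifs
    · norm_num
    · norm_num
  have h2 : (3 : ℝ) ^ L3.card ≤
      ∑ W ∈ L.powerset, ∑ T ∈ (L \ W).powerset, (if W ∪ T ⊆ L3 then (1 : ℝ) else 0) := by
    rw [← pairs_count L3]
    refine (Finset.sum_le_sum fun W hW => ?_).trans
      (Finset.sum_le_sum_of_subset_of_nonneg (Finset.powerset_mono.2 h) fun W _ _ =>
        Finset.sum_nonneg fun T _ => by split_ifs <;> norm_num)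
    rw [Finset.mem_powerset] at hW
    refine (Finset.sum_le_sum fun T hT => ?_).trans
      (Finset.sum_le_sum_of_subset_of_nonneg
        (Finset.powerset_mono.2 (Finset.sdiff_subset_sdiff h le_rfl)) fun T _ _ => by
          split_ifs <;> norm_num)
    rw [Finset.mem_powerset] at hT
    rw [if_pos (Finset.union_subset hW (hT.trans Finset.sdiff_subset))]
  rw [h1, pairs_count L]
  linarith

/-- the imaginary part of the sum over the sets of classes -/
theorem im_sum {α : Type} [DecidableEq α] (L : Finset α) (t : α → ℤ) (g : Finset α → ℝ) (K : ℝ)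
    (hK : ∀ W ∈ L.powerset, |g W| ≤ K) :
    |(∑ W ∈ L.powerset, (g W : ℂ) *
      ((∏ v ∈ W, A0 ^ (-t v)) * ∏ v ∈ L \ W, (1 - A0 ^ (-t v)))).im| ≤
      Real.sqrt 3 / 2 * K * (3 ^ L.card - 3 ^ (L.filter fun v => (3 : ℤ) ∣ t v).card) := by
  classical
  have hK0 : 0 ≤ K := (abs_nonneg _).trans (hK ∅ (Finset.empty_mem_powerset _))
  have h1 : ∀ W ∈ L.powerset, (∏ v ∈ W, A0 ^ (-t v)) * ∏ v ∈ L \ W, (1 - A0 ^ (-t v)) =
      ∑ T ∈ (L \ W).powerset, (-1) ^ T.card * A0 ^ (-∑ v ∈ W ∪ T, t v) := by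
    intro W hW
    have h3 : ∏ v ∈ L \ W, (1 - A0 ^ (-t v)) = ∏ v ∈ L \ W, ((-1) * A0 ^ (-t v) + 1) :=
      Finset.prod_congr rfl fun v _ => by ring
    rw [h3, Finset.prod_add, Finset.mul_sum]
    refine Finset.sum_congr rfl fun T hT => ?_
    rw [Finset.mem_powerset] at hT
    have hd : Disjoint W T := by
      rw [Finset.disjoint_left]
      intro v hv hv'
      exact (Finset.mem_sdiff.1 (hT hv')).2 hv
    rw [Finset.prod_const_one, mul_one, Finset.prod_mul_distrib, Finset.prod_const, ← zp_prod,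
      Finset.prod_union hd]
    ring
  have h2 : (∑ W ∈ L.powerset, (g W : ℂ) *
      ((∏ v ∈ W, A0 ^ (-t v)) * ∏ v ∈ L \ W, (1 - A0 ^ (-t v)))).im =
      ∑ W ∈ L.powerset, ∑ T ∈ (L \ W).powerset,
        g W * ((-1) ^ T.card * (A0 ^ (-∑ v ∈ W ∪ T, t v)).im) := by
    rw [Complex.im_sum]
    refine Finset.sum_congr rfl fun W hW => ?_
    rw [h1 W hW, Complex.im_ofReal_mul, Complex.im_sum, Finset.mul_sum]
    refine Finset.sum_congr rfl fun T _ => ?_
    have h4 : ((-1 : ℂ)) ^ T.card = (((-1 : ℝ) ^ T.card : ℝ) : ℂ) := by push_cast; rfl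
    rw [h4, Complex.im_ofReal_mul]
  rw [h2]
  have h5 : ∀ W ∈ L.powerset, ∀ T ∈ (L \ W).powerset,
      |g W * ((-1) ^ T.card * (A0 ^ (-∑ v ∈ W ∪ T, t v)).im)| ≤
        Real.sqrt 3 / 2 * K *
          (if W ∪ T ⊆ (L.filter fun v => (3 : ℤ) ∣ t v) then 0 else 1) := by
    intro W hW T hT
    rw [abs_mul, abs_mul, abs_pow, abs_neg, abs_one, one_pow, one_mul]
    by_cases h6 : W ∪ T ⊆ (L.filter fun v => (3 : ℤ) ∣ t v)
    · rw [if_pos h6, zp_three, abs_zero, mul_zero, mul_zero]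
      rw [dvd_neg]
      exact Finset.dvd_sum fun v hv => (Finset.mem_filter.1 (h6 hv)).2
    · rw [if_neg h6, mul_one, mul_comm (Real.sqrt 3 / 2)]
      exact mul_le_mul (hK W hW) (zp_im _) (abs_nonneg _) hK0
  refine (Finset.abs_sum_le_sum_abs _ _).trans ?_
  refine (Finset.sum_le_sum fun W hW => (Finset.abs_sum_le_sum_abs _ _).trans
    (Finset.sum_le_sum fun T hT => h5 W hW T hT)).trans ?_
  simp only [← Finset.mul_sum]
  exact mul_le_mul_of_nonneg_left (pairs_three L _ (Finset.filter_subset _ _)) (by positivity)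

end Pool.Agent.SLAB
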