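import Mathlib
import Pool.Agent.SLAB.Imag
import Pool.Agent.SLAB.Diff

/-!
# SLAB: the weighted sum over the states as a sum over the sets of classes
-/

set_option autoImplicit false
set_option linter.unusedSectionVars false

open Module LaurentPolynomial Submodule
open Pool.Agent.Helper16.Knotoid Pool.Agent.UNI

namespace Pool.Agent.SLAB

section

variable {E : Type} [Fintype E] [DecidableEq E] (M : Matrix E E (ZMod 2)) (σ : E → Bool)

/-- the twist number of a row -/
noncomputable def tz (v : E → ZMod 2) : ℤ :=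
  ∑ c ∈ Finset.univ.filter (fun c => M c = v), if σ c then 1 else -1

theorem wt_not (b : Bool) : wt (!b) = A0 ^ (-(if b then (1 : ℤ) else -1)) := by
  unfold wt
  cases b
  · simp
  · simp

theorem chi_exact (U : Finset (E → ZMod 2)) :
    ∑ s : E → Bool, (∏ c, wt (s c)) * ∏ v ∈ U, chi M σ v s = ∏ v ∈ U, A0 ^ (-tz M σ v) := by
  classical
  have h3 : ∀ s : E → Bool, (∏ c, wt (s c)) * ∏ v ∈ U, chi M σ v s =
      ∏ c, (wt (s c) * if M c ∈ U ∧ s c = σ c then 0 else 1) := by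
    intro s
    rw [Finset.prod_mul_distrib]
    congr 1
    by_cases h : ∀ c, M c ∈ U → s c ≠ σ c
    · rw [Finset.prod_eq_one, Finset.prod_eq_one]
      · intro c _
        rw [if_neg]
        exact fun h4 => h c h4.1 h4.2
      · intro v hv
        unfold chi
        rw [if_pos]
        intro c hc
        exact h c (by rw [hc]; exact hv)
    · push Not at h
      obtain ⟨c, hc1, hc2⟩ := h
      rw [Finset.prod_eq_zero hc1, Finset.prod_eq_zero (Finset.mem_univ c)]
      · rw [if_pos ⟨hc1, hc2⟩]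
      · unfold chi
        rw [if_neg]
        exact fun h4 => h4 c rfl hc2
  have h4 : ∑ s : E → Bool, (∏ c, wt (s c)) * ∏ v ∈ U, chi M σ v s =
      ∏ c, ∑ b : Bool, (wt b * if M c ∈ U ∧ b = σ c then 0 else 1) := by
    rw [Finset.prod_univ_sum, Fintype.piFinset_univ]
    exact Finset.sum_congr rfl fun s _ => h3 s
  have h5 : ∀ c, ∑ b : Bool, (wt b * if M c ∈ U ∧ b = σ c then 0 else 1) =
      if M c ∈ U then A0 ^ (-(if σ c then (1 : ℤ) else -1)) else 1 := by
    intro c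
    rw [Fintype.sum_bool]
    by_cases h : M c ∈ U
    · rw [if_pos h, ← wt_not]
      cases σ c
      · simp [h]
      · simp [h]
    · simp only [h, false_and, if_false, mul_one]
      exact wt_sum
  rw [h4, Finset.prod_congr rfl fun c _ => h5 c]
  have h6 : ∀ v ∈ U, A0 ^ (-tz M σ v) =
      ∏ c ∈ Finset.univ.filter (fun c => M c = v), A0 ^ (-(if σ c then (1 : ℤ) else -1)) := by
    intro v _
    unfold tz
    exact (zp_prod _ _).symm
  rw [Finset.prod_congr rfl h6, ← Finset.prod_filter]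
  rw [← Finset.prod_fiberwise_of_maps_to (t := U) (g := M) (fun c hc => (Finset.mem_filter.1 hc).2)]
  refine Finset.prod_congr rfl fun v hv => ?_
  refine Finset.prod_congr ?_ fun _ _ => rfl
  ext c
  rw [Finset.mem_filter, Finset.mem_filter, Finset.mem_filter]
  constructor
  · exact fun h => ⟨Finset.mem_univ _, h.2⟩
  · exact fun h => ⟨⟨Finset.mem_univ _, by rw [h.2]; exact hv⟩, h.2⟩

/-- the weighted sum of a function of the set of the full classes -/
theorem sum_exact (h : Finset (E → ZMod 2) → ℂ) :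
    ∑ s : E → Bool, (∏ c, wt (s c)) * h (ful M σ s) =
      ∑ W ∈ (nzr M).powerset, h W * ((∏ v ∈ W, A0 ^ (-tz M σ v)) *
        ∏ v ∈ nzr M \ W, (1 - A0 ^ (-tz M σ v))) := by
  classical
  have h3 : ∀ s, h (ful M σ s) = ∑ W ∈ (nzr M).powerset, h W *
      ∑ T ∈ (nzr M \ W).powerset, (-1) ^ T.card * ∏ v ∈ W ∪ T, chi M σ v s := by
    intro s
    have h4 : ∑ W ∈ (nzr M).powerset, h W *
        ∑ T ∈ (nzr M \ W).powerset, (-1) ^ T.card * ∏ v ∈ W ∪ T, chi M σ v s =
        ∑ W ∈ (nzr M).powerset, if ful M σ s = W then h W else 0 := by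
      refine Finset.sum_congr rfl fun W hW => ?_
      rw [← ind_ful M σ s W hW]
      split_ifs
      · rw [mul_one]
      · rw [mul_zero]
    rw [h4, Finset.sum_ite_eq, if_pos (ful_mem M σ s)]
  have h4 : ∑ s : E → Bool, (∏ c, wt (s c)) * h (ful M σ s) =
      ∑ W ∈ (nzr M).powerset, ∑ T ∈ (nzr M \ W).powerset,
        h W * ((-1) ^ T.card * ∑ s : E → Bool, (∏ c, wt (s c)) * ∏ v ∈ W ∪ T, chi M σ v s) := by
    rw [Finset.sum_congr rfl fun s _ => by rw [h3 s, Finset.mul_sum]]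
    rw [Finset.sum_comm]
    refine Finset.sum_congr rfl fun W _ => ?_
    simp only [Finset.mul_sum]
    rw [Finset.sum_comm]
    refine Finset.sum_congr rfl fun T _ => ?_
    refine Finset.sum_congr rfl fun s _ => ?_
    ring
  rw [h4]
  refine Finset.sum_congr rfl fun W hW => ?_
  rw [← Finset.mul_sum]
  congr 1
  have h5 : ∏ v ∈ nzr M \ W, (1 - A0 ^ (-tz M σ v)) =
      ∏ v ∈ nzr M \ W, ((-1) * A0 ^ (-tz M σ v) + 1) :=
    Finset.prod_congr rfl fun v _ => by ring
  rw [h5, Finset.prod_add, Finset.mul_sum]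
  refine Finset.sum_congr rfl fun T hT => ?_
  rw [Finset.mem_powerset] at hT
  have hd : Disjoint W T := by
    rw [Finset.disjoint_left]
    intro v hv hv'
    exact (Finset.mem_sdiff.1 (hT hv')).2 hv
  rw [chi_exact, Finset.prod_const_one, mul_one, Finset.prod_mul_distrib, Finset.prod_const,
    Finset.prod_union hd]
  ring

/-- the nonzero rows with a twist number not divisible by `6` -/
noncomputable def cl6 : Finset (E → ZMod 2) := (nzr M).filter fun v => ¬ (6 : ℤ) ∣ tz M σ v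

/-- the nonzero rows with a twist number congruent to `3` modulo `6` -/
noncomputable def cl3 : Finset (E → ZMod 2) :=
  (nzr M).filter fun v => ¬ (6 : ℤ) ∣ tz M σ v ∧ (3 : ℤ) ∣ tz M σ v

/-- the nonzero rows with a twist number divisible by `6` -/
noncomputable def cl0 : Finset (E → ZMod 2) := (nzr M).filter fun v => (6 : ℤ) ∣ tz M σ v

/-- the imaginary part of the weighted sum of a bounded real function of the set of the full
classes -/
theorem sum_im (g : Finset (E → ZMod 2) → ℝ) (C K : ℝ)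
    (hK : ∀ W ⊆ cl6 M σ, |g (cl0 M σ ∪ W) - C| ≤ K) :
    |(∑ s : E → Bool, (∏ c, wt (s c)) * (g (ful M σ s) : ℂ)).im| ≤
      Real.sqrt 3 / 2 * K * (3 ^ (cl6 M σ).card - 3 ^ (cl3 M σ).card) := by
  classical
  obtain ⟨K6, hK6⟩ : ∃ K6, K6 = cl0 M σ := ⟨_, rfl⟩
  have hm6 : ∀ v, v ∈ K6 ↔ v ∈ nzr M ∧ (6 : ℤ) ∣ tz M σ v := by
    intro v
    rw [hK6]
    unfold cl0
    rw [Finset.mem_filter]
  have hml : ∀ v, v ∈ cl6 M σ ↔ v ∈ nzr M ∧ ¬ (6 : ℤ) ∣ tz M σ v := by
    intro v
    unfold cl6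
    rw [Finset.mem_filter]
  have hC : ∑ s : E → Bool, (∏ c, wt (s c)) * (g (ful M σ s) : ℂ) =
      ∑ s : E → Bool, (∏ c, wt (s c)) * ((g (ful M σ s) - C : ℝ) : ℂ) + (C : ℂ) := by
    have h0 := chi_exact M σ ∅
    simp only [Finset.prod_empty, mul_one] at h0
    have h1 : (C : ℂ) = ∑ s : E → Bool, (∏ c, wt (s c)) * (C : ℂ) := by
      rw [← Finset.sum_mul, h0, one_mul]
    conv_rhs => rw [h1]
    rw [← Finset.sum_add_distrib]
    refine Finset.sum_congr rfl fun s _ => ?_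
    push_cast
    ring
  rw [hC, Complex.add_im, Complex.ofReal_im, add_zero]
  have h1 := im_sum (cl6 M σ) (tz M σ) (fun W => g (K6 ∪ W) - C) K fun W hW => by
    rw [hK6]
    exact hK W (Finset.mem_powerset.1 hW)
  have h2 : (cl6 M σ).filter (fun v => (3 : ℤ) ∣ tz M σ v) = cl3 M σ := by
    unfold cl3 cl6
    rw [Finset.filter_filter]
  rw [h2] at h1
  have h3 : ∑ s : E → Bool, (∏ c, wt (s c)) * ((g (ful M σ s) - C : ℝ) : ℂ) =
      ∑ W ∈ (cl6 M σ).powerset, ((g (K6 ∪ W) - C : ℝ) : ℂ) *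
        ((∏ v ∈ W, A0 ^ (-tz M σ v)) * ∏ v ∈ cl6 M σ \ W, (1 - A0 ^ (-tz M σ v))) := by
    rw [sum_exact M σ fun W => ((g W - C : ℝ) : ℂ)]
    have hinj : ∀ W ∈ (cl6 M σ).powerset, ∀ W' ∈ (cl6 M σ).powerset, K6 ∪ W = K6 ∪ W' → W = W' := by
      intro W hW W' hW' hh
      rw [Finset.mem_powerset] at hW hW'
      ext v
      constructor
      · intro hv
        have h5 : v ∈ K6 ∪ W' := by
          rw [← hh]
          exact Finset.mem_union_right _ hv
        rcases Finset.mem_union.1 h5 with h6 | h6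
        · exact absurd ((hm6 v).1 h6).2 ((hml v).1 (hW hv)).2
        · exact h6
      · intro hv
        have h5 : v ∈ K6 ∪ W := by
          rw [hh]
          exact Finset.mem_union_right _ hv
        rcases Finset.mem_union.1 h5 with h6 | h6
        · exact absurd ((hm6 v).1 h6).2 ((hml v).1 (hW' hv)).2
        · exact h6
    have hsub : (cl6 M σ).powerset.image (fun W => K6 ∪ W) ⊆ (nzr M).powerset := by
      intro W hW
      obtain ⟨W', hW', rfl⟩ := Finset.mem_image.1 hW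
      rw [Finset.mem_powerset] at hW' ⊢
      intro v hv
      rcases Finset.mem_union.1 hv with h6 | h6
      · exact ((hm6 v).1 h6).1
      · exact ((hml v).1 (hW' h6)).1
    rw [← Finset.sum_subset hsub, Finset.sum_image hinj]
    · refine Finset.sum_congr rfl fun W hW => ?_
      rw [Finset.mem_powerset] at hW
      congr 1
      have hd : Disjoint K6 W := by
        rw [Finset.disjoint_left]
        intro v hv hv'
        exact ((hml v).1 (hW hv')).2 ((hm6 v).1 hv).2
      have h7 : nzr M \ (K6 ∪ W) = cl6 M σ \ W := by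
        ext v
        rw [Finset.mem_sdiff, Finset.mem_sdiff, Finset.mem_union, hm6, hml]
        constructor
        · rintro ⟨h8, h9⟩
          push Not at h9
          exact ⟨⟨h8, h9.1 h8⟩, h9.2⟩
        · rintro ⟨⟨h8, h9⟩, h10⟩
          exact ⟨h8, fun h11 => h11.elim (fun h12 => h9 h12.2) h10⟩
      have h8 : ∏ v ∈ K6, A0 ^ (-tz M σ v) = 1 := by
        refine Finset.prod_eq_one fun v hv => ?_
        exact zp_six _ ((dvd_neg).2 ((hm6 v).1 hv).2)
      rw [h7, Finset.prod_union hd, h8, one_mul]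
    · intro W hW hnot
      rw [Finset.mem_powerset] at hW
      have h5 : ∃ v ∈ K6, v ∉ W := by
        by_contra h6
        push Not at h6
        apply hnot
        rw [Finset.mem_image]
        refine ⟨W ∩ cl6 M σ, Finset.mem_powerset.2 Finset.inter_subset_right, ?_⟩
        ext v
        rw [Finset.mem_union, Finset.mem_inter, hml]
        constructor
        · rintro (h7 | h7)
          · exact h6 v h7
          · exact h7.1
        · intro h7
          by_cases h8 : (6 : ℤ) ∣ tz M σ v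
          · exact Or.inl ((hm6 v).2 ⟨hW h7, h8⟩)
          · exact Or.inr ⟨h7, hW h7, h8⟩
      obtain ⟨v, hv1, hv2⟩ := h5
      have h6 : ∏ v ∈ nzr M \ W, (1 - A0 ^ (-tz M σ v)) = 0 := by
        refine Finset.prod_eq_zero (Finset.mem_sdiff.2 ⟨((hm6 v).1 hv1).1, hv2⟩) ?_
        rw [zp_six _ ((dvd_neg).2 ((hm6 v).1 hv1).2), sub_self]
      rw [h6, mul_zero, mul_zero]
  rw [h3]
  exact h1

end

variable {n : ℕ}

/-- the real part of the first order term -/
theorem slab_re (D : GaussDiagram n) (σ : Fin n → Bool) :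
    |(evA D.normalizedBracket).snd.re + 3 * ((D.writhe - ∑ c, if σ c then (1 : ℤ) else -1 : ℤ) : ℝ)| ≤
      3 * (cl6 (D.gmat σ) σ).card *
        (3 ^ (cl6 (D.gmat σ) σ).card - 3 ^ (cl3 (D.gmat σ) σ).card) := by
  classical
  obtain ⟨t, ht⟩ : ∃ t : ℤ, t = ∑ c, if σ c then (1 : ℤ) else -1 := ⟨_, rfl⟩
  obtain ⟨G, hG⟩ : ∃ G : ℂ, G = ∑ s : Fin n → Bool, (∏ c, wt (s c)) *
      gg (D.gmat σ) (dif σ s) := ⟨_, rfl⟩
  have h1 : (evA D.normalizedBracket).snd = 3 * (t : ℂ) - 2 * s3 * G - 3 * (D.writhe : ℂ) := by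
    unfold GaussDiagram.normalizedBracket
    rw [map_mul, evA_sign, evA_bracket D σ, dn_mul, dn_snd, ← ht, ← hG]
    ring
  obtain ⟨γ, hγ⟩ : ∃ γ : Finset (Fin n → ZMod 2) → ℝ, γ = fun W =>
      ((((ck (D.gmat σ) (crs (D.gmat σ) W) + (crs (D.gmat σ) W).card : ℕ) : ℤ) - n : ℤ) : ℝ) :=
    ⟨_, rfl⟩
  have h2 : ∀ s : Fin n → Bool, gg (D.gmat σ) (dif σ s) = (γ (ful (D.gmat σ) σ s) : ℂ) := by
    intro s
    unfold gg
    rw [ck_ful (D.gmat σ) σ (D.gmat_symm σ) s, hγ]
    push_cast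
    ring
  have h3 : |G.im| ≤ Real.sqrt 3 / 2 * (cl6 (D.gmat σ) σ).card *
      (3 ^ (cl6 (D.gmat σ) σ).card - 3 ^ (cl3 (D.gmat σ) σ).card) := by
    rw [hG, Finset.sum_congr rfl fun s _ => by rw [h2 s]]
    refine sum_im (D.gmat σ) σ γ (γ (cl0 (D.gmat σ) σ) + (cl6 (D.gmat σ) σ).card) _
      fun W hW => ?_
    have hWn : W ⊆ nzr (D.gmat σ) := hW.trans (Finset.filter_subset _ _)
    have hd : Disjoint (cl0 (D.gmat σ) σ) W := by
      rw [Finset.disjoint_left]
      intro v hv hv'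
      exact (Finset.mem_filter.1 (hW hv')).2 (Finset.mem_filter.1 hv).2
    obtain ⟨h3, h4⟩ := ck_full (D.gmat σ) (D.gmat_symm σ) (cl0 (D.gmat σ) σ) W hWn hd
    have h5 : W.card ≤ (cl6 (D.gmat σ) σ).card := Finset.card_le_card hW
    have h7 : |((((ck (D.gmat σ) (crs (D.gmat σ) (cl0 (D.gmat σ) σ ∪ W)) +
        (crs (D.gmat σ) (cl0 (D.gmat σ) σ ∪ W)).card : ℕ) : ℤ) - n) -
        ((((ck (D.gmat σ) (crs (D.gmat σ) (cl0 (D.gmat σ) σ)) +
        (crs (D.gmat σ) (cl0 (D.gmat σ) σ)).card : ℕ) : ℤ) - n) +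
          ((cl6 (D.gmat σ) σ).card : ℤ)) : ℤ)| ≤ ((cl6 (D.gmat σ) σ).card : ℤ) := by
      rw [abs_le]
      constructor <;> omega
    rw [hγ]
    beta_reduce
    exact_mod_cast h7
  have hs : s3 = ⟨0, Real.sqrt 3⟩ := by
    unfold s3 A0
    apply Complex.ext
    · simp
    · simp
      ring
  have h4 : (evA D.normalizedBracket).snd.re + 3 * ((D.writhe - t : ℤ) : ℝ) =
      2 * Real.sqrt 3 * G.im := by
    rw [h1, hs]
    simp
    ring
  rw [← ht, h4, abs_mul, abs_of_nonneg (by positivity : (0 : ℝ) ≤ 2 * Real.sqrt 3)]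
  have h5 : Real.sqrt 3 * Real.sqrt 3 = 3 := Real.mul_self_sqrt (by norm_num)
  have h6 : 2 * Real.sqrt 3 * |G.im| ≤ 2 * Real.sqrt 3 * (Real.sqrt 3 / 2 * (cl6 (D.gmat σ) σ).card *
      (3 ^ (cl6 (D.gmat σ) σ).card - 3 ^ (cl3 (D.gmat σ) σ).card)) :=
    mul_le_mul_of_nonneg_left h3 (by positivity)
  refine h6.trans (le_of_eq ?_)
  linear_combination (cl6 (D.gmat σ) σ).card *
      (3 ^ (cl6 (D.gmat σ) σ).card - 3 ^ (cl3 (D.gmat σ) σ).card) * h5

end Pool.Agent.SLAB
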