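import Mathlib
import Pool.Agent.SLAB.Exact
import Pool.Agent.FHP.RelL

/-!
# SLAB: the final statements

`parallelWrithe I e`: the sum of the signs of the crossings which are interlaced with a crossing of
their twist class.  `errorTerm I e S = a (3 ^ a - 3 ^ b)`, where `a` is the number of the twist
classes with a twist number not divisible by `6`, and `b` the number of those with a twist number
congruent to `3` modulo `6`.  If `f = f'` for two knot diagrams, or knotoid
diagrams, then `2 |parallelWrithe D - parallelWrithe D'| ≤ errorTerm D + errorTerm D'`.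
-/

set_option autoImplicit false
set_option linter.unusedSectionVars false

open Submodule Module LaurentPolynomial
open Pool.Agent.Helper16.Knotoid Pool.Agent.UNI Pool.Agent.SPT Pool.Agent.EQT Pool.Agent.FHP

namespace Pool.Agent.SLAB

variable {n : ℕ}

open Classical in
/-- The sum of the signs of the crossings which are interlaced with a crossing of their class. -/
noncomputable def parallelWrithe (I : Fin n → Fin n → Prop) (e : Fin n → Bool) : ℤ :=
  ∑ i with (∃ j, Twins I i j ∧ I i j), if e i then 1 else -1

theorem parallel_eq (I : Fin n → Fin n → Prop) (e : Fin n → Bool) :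
    ((∑ c, if e c then (1 : ℤ) else -1) - ∑ c, if cutState I e c then (1 : ℤ) else -1) =
      2 * parallelWrithe I e := by
  classical
  unfold parallelWrithe
  rw [← Finset.sum_sub_distrib, Finset.mul_sum, Finset.sum_filter]
  refine Finset.sum_congr rfl fun c _ => ?_
  have h1 := Graph_cut I e c
  by_cases h : ∃ j, Twins I c j ∧ I c j
  · rw [if_pos h]
    have h2 := h1.2 h
    cases h3 : e c <;> cases h4 : cutState I e c
    · exact absurd (h4.trans h3.symm) h2
    · rfl
    · rfl
    · exact absurd (h4.trans h3.symm) h2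
  · rw [if_neg h]
    have h2 : cutState I e c = e c := by
      by_contra h3
      exact h (h1.1 h3)
    rw [h2, sub_self]

/-- the number of the nonzero rows is at most the number of the classes -/
theorem nzr_card {I : Fin n → Fin n → Prop} {e : Fin n → Bool} (hi : ∀ i, ¬ I i i)
    (hs : ∀ i j, I i j → I j i) {S : Finset (Fin n)} (hS : Transversal I S)
    (M : Matrix (Fin n) (Fin n) (ZMod 2)) (hM : ∀ i, row (Graph_R I e) i = M i) :
    (nzr M).card ≤ S.card := by
  classical
  have h1 : nzr M = S.image (row (Graph_R I e)) := by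
    rw [← Graph_image hi hs hS]
    unfold nzr rows
    congr 1
    refine Finset.image_congr fun i _ => ?_
    exact (hM i).symm
  rw [h1]
  exact Finset.card_image_le

open Classical in
/-- `a (3 ^ a - 3 ^ b)`, where `a` is the number of the twist classes with a twist number not
divisible by `6`, and `b` the number of those with a twist number congruent to `3` modulo `6`. -/
noncomputable def errorTerm (I : Fin n → Fin n → Prop) (e : Fin n → Bool) (S : Finset (Fin n)) : ℤ :=
  (S.filter fun i => ¬ (6 : ℤ) ∣ twistNumber I e i).card *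
    (3 ^ (S.filter fun i => ¬ (6 : ℤ) ∣ twistNumber I e i).card -
    3 ^ (S.filter fun i => twistNumber I e i % 6 = 3).card)

theorem tz_twist {I : Fin n → Fin n → Prop} {e : Fin n → Bool}
    (M : Matrix (Fin n) (Fin n) (ZMod 2)) (hM : ∀ i, row (Graph_R I e) i = M i)
    (v : Fin n → ZMod 2) :
    tz M (cutState I e) v = twist (Graph_R I e) (cutState I e) v := by
  classical
  unfold tz twist
  refine Finset.sum_congr ?_ fun _ _ => rfl
  ext c
  rw [Finset.mem_filter, Finset.mem_filter, hM c]

/-- the error term bounds the error -/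
theorem error_bound {I : Fin n → Fin n → Prop} {e : Fin n → Bool} (hi : ∀ i, ¬ I i i)
    (hs : ∀ i j, I i j → I j i) {S : Finset (Fin n)} (hS : Transversal I S)
    (M : Matrix (Fin n) (Fin n) (ZMod 2)) (hM : ∀ i, row (Graph_R I e) i = M i) :
    (3 * (cl6 M (cutState I e)).card * (3 ^ (cl6 M (cutState I e)).card - 3 ^ (cl3 M (cutState I e)).card) : ℝ) ≤
      3 * (errorTerm I e S : ℝ) := by
  classical
  have h1 : nzr M = S.image (row (Graph_R I e)) := by
    rw [← Graph_image hi hs hS]
    unfold nzr rows
    congr 1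
    refine Finset.image_congr fun i _ => ?_
    exact (hM i).symm
  have htw : ∀ i, tz M (cutState I e) (row (Graph_R I e) i) = twistNumber I e i ∨
      tz M (cutState I e) (row (Graph_R I e) i) = -twistNumber I e i := by
    intro i
    rw [tz_twist M hM]
    exact Graph_twist hi hs i
  obtain ⟨A, hA⟩ : ∃ A, A = S.filter fun i => ¬ (6 : ℤ) ∣ twistNumber I e i := ⟨_, rfl⟩
  obtain ⟨B, hB⟩ : ∃ B, B = S.filter fun i => twistNumber I e i % 6 = 3 := ⟨_, rfl⟩
  have h3 : (cl6 M (cutState I e)).card ≤ A.card := by
    refine (Finset.card_le_card ?_).trans (Finset.card_image_le (s := A) (f := row (Graph_R I e)))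
    intro v hv
    unfold cl6 at hv
    rw [Finset.mem_filter, h1, Finset.mem_image] at hv
    obtain ⟨⟨i, hiS, rfl⟩, h4⟩ := hv
    refine Finset.mem_image_of_mem _ ?_
    rw [hA, Finset.mem_filter]
    refine ⟨hiS, fun h5 => h4 ?_⟩
    rcases htw i with h6 | h6
    · rw [h6]
      exact h5
    · rw [h6]
      exact (dvd_neg).2 h5
  have h4 : B.card ≤ (cl3 M (cutState I e)).card := by
    refine Finset.card_le_card_of_injOn (row (Graph_R I e)) ?_ ?_
    · intro i hiB
      have h5 := Finset.mem_coe.1 hiB
      rw [hB, Finset.mem_filter] at h5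
      refine Finset.mem_coe.2 ?_
      unfold cl3
      rw [Finset.mem_filter, h1]
      refine ⟨Finset.mem_image_of_mem _ h5.1, ?_⟩
      rcases htw i with h6 | h6
      · rw [h6]
        omega
      · rw [h6]
        omega
    · intro i hiB j hjB hij
      have h5 := Finset.mem_coe.1 hiB
      have h6 := Finset.mem_coe.1 hjB
      rw [hB, Finset.mem_filter] at h5 h6
      exact hS.2.1 i h5.1 j h6.1 ((Graph_row hi hs i j).1 hij)
  have h5 : B.card ≤ A.card := by
    refine Finset.card_le_card ?_
    intro i hi'
    rw [hB, Finset.mem_filter] at hi'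
    rw [hA, Finset.mem_filter]
    exact ⟨hi'.1, by omega⟩
  have h6 : (3 : ℝ) ^ (cl6 M (cutState I e)).card ≤ 3 ^ A.card :=
    pow_le_pow_right₀ (by norm_num) h3
  have h7 : (3 : ℝ) ^ B.card ≤ 3 ^ (cl3 M (cutState I e)).card :=
    pow_le_pow_right₀ (by norm_num) h4
  have h8 : (3 : ℝ) ^ B.card ≤ 3 ^ A.card := pow_le_pow_right₀ (by norm_num) h5
  have h9 : (errorTerm I e S : ℝ) = A.card * (3 ^ A.card - 3 ^ B.card) := by
    unfold errorTerm
    rw [hA, hB]
    push_cast
    rfl
  rw [h9, mul_assoc]
  refine mul_le_mul_of_nonneg_left ?_ (by norm_num)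
  have h10 : ((cl6 M (cutState I e)).card : ℝ) ≤ A.card := by exact_mod_cast h3
  calc ((cl6 M (cutState I e)).card : ℝ) *
        (3 ^ (cl6 M (cutState I e)).card - 3 ^ (cl3 M (cutState I e)).card) ≤
        (cl6 M (cutState I e)).card * (3 ^ A.card - 3 ^ B.card) :=
        mul_le_mul_of_nonneg_left (by linarith) (Nat.cast_nonneg _)
    _ ≤ A.card * (3 ^ A.card - 3 ^ B.card) := mul_le_mul_of_nonneg_right h10 (by linarith)

/-- **Knotoid diagrams**, first order form -/
theorem knotoid_re (D : GaussDiagram n) (S : Finset (Fin n)) (hS : Transversal D.Interlaced S) :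
    |(evA D.normalizedBracket).snd.re + 6 * (parallelWrithe D.Interlaced D.sign : ℝ)| ≤
      3 * (errorTerm D.Interlaced D.sign S : ℝ) := by
  have h1 := slab_re D (cutState D.Interlaced D.sign)
  have h2 := parallel_eq D.Interlaced D.sign
  have h3 := error_bound (e := D.sign) (Graph_irrefl D) (Graph_int_symm D) hS
    (D.gmat (cutState D.Interlaced D.sign)) fun i => by
      rw [← row_eq D (cutState D.Interlaced D.sign)]
      rfl
  have h4 : D.writhe = ∑ c, if D.sign c then (1 : ℤ) else -1 := rfl
  rw [← h4] at h2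
  rw [h2] at h1
  have h5 : (3 * ((2 * parallelWrithe D.Interlaced D.sign : ℤ) : ℝ)) =
      6 * (parallelWrithe D.Interlaced D.sign : ℝ) := by
    push_cast
    ring
  rw [h5] at h1
  exact h1.trans h3

theorem error_zero (I : Fin 0 → Fin 0 → Prop) (e : Fin 0 → Bool) (S : Finset (Fin 0)) :
    errorTerm I e S = 0 := by
  have h : S = ∅ := by
    ext i
    exact Fin.elim0 i
  rw [h]
  unfold errorTerm
  simp

/-- **Knot diagrams**, first order form -/
theorem knot_re (g : GaussJones.Code n) (e : Fin n → Bool) (S : Finset (Fin n))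
    (hS : Transversal (GaussJones.Interlaced g) S) :
    |(evA (GaussJones.fPoly g e)).snd.re +
        6 * (parallelWrithe (GaussJones.Interlaced g) e : ℝ)| ≤
      3 * (errorTerm (GaussJones.Interlaced g) e S : ℝ) := by
  classical
  rcases Nat.eq_zero_or_pos n with hn | hn
  · subst hn
    have h1 : parallelWrithe (GaussJones.Interlaced g) e = 0 := by
      unfold parallelWrithe
      exact Finset.sum_eq_zero fun i _ => Fin.elim0 i
    have h3 : GaussJones.fPoly g e = 1 := by
      unfold GaussJones.fPoly GaussJones.bracket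
      have h4 : ∀ s : Fin 0 → Bool, GaussJones.loops g s = 0 := by
        intro s
        unfold GaussJones.loops
        have : IsEmpty (Quot (GaussJones.Joined g s)) := ⟨fun q => by
          obtain ⟨k, -⟩ := Quot.exists_rep q
          exact Fin.elim0 k⟩
        exact Nat.card_of_isEmpty
      simp [h4]
    rw [h1, h3, map_one, TrivSqZeroExt.snd_one, Complex.zero_re, error_zero, Int.cast_zero,
      mul_zero, mul_zero, add_zero, abs_zero]
  have hi : ∀ i, ¬ GaussJones.Interlaced g i i := by
    intro i h
    rcases h with h | h <;> exact lt_irrefl _ h.1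
  have hs : ∀ i j, GaussJones.Interlaced g i j → GaussJones.Interlaced g j i :=
    fun i j h => h.symm
  have h0 : (UNI.cutOpen g e).Cut (cutState (GaussJones.Interlaced g) e) =
      Graph_R (GaussJones.Interlaced g) e := by
    have h1 : GaussJones.Cut g e (cutState (GaussJones.Interlaced g) e) =
        Graph_R (GaussJones.Interlaced g) e := rfl
    rw [← h1]
    funext i j
    exact (propext (UNI.cut_closed g e _ i j)).symm
  have h1 := slab_re (UNI.cutOpen g e) (cutState (GaussJones.Interlaced g) e)
  have h2 := parallel_eq (GaussJones.Interlaced g) e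
  have h3 := error_bound (e := e) hi hs hS
    ((UNI.cutOpen g e).gmat (cutState (GaussJones.Interlaced g) e)) fun i => by
      rw [← row_eq (UNI.cutOpen g e) (cutState (GaussJones.Interlaced g) e), h0]
  have h4 : (UNI.cutOpen g e).writhe = ∑ c, if e c then (1 : ℤ) else -1 := rfl
  rw [← h4] at h2
  rw [h2, ← f_closed hn g e] at h1
  have h5 : (3 * ((2 * parallelWrithe (GaussJones.Interlaced g) e : ℤ) : ℝ)) =
      6 * (parallelWrithe (GaussJones.Interlaced g) e : ℝ) := by
    push_cast
    ring
  rw [h5] at h1
  exact h1.trans h3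

theorem pair_bound (f f' : LaurentPolynomial ℤ) (w w' E E' : ℤ)
    (h : |(evA f).snd.re + 6 * (w : ℝ)| ≤ 3 * (E : ℝ))
    (h' : |(evA f').snd.re + 6 * (w' : ℝ)| ≤ 3 * (E' : ℝ)) :
    6 * |w - w'| ≤ moment (f - f') + 3 * E + 3 * E' := by
  have h3 := (Complex.abs_re_le_norm _).trans (snd_bound (f - f'))
  rw [map_sub, TrivSqZeroExt.snd_sub, Complex.sub_re] at h3
  rw [abs_le] at h h' h3
  have h4 : |6 * ((w : ℝ) - w')| ≤ (moment (f - f') : ℝ) + 3 * E + 3 * E' := by
    rw [abs_le]
    constructor <;> linarith [h.1, h.2, h'.1, h'.2, h3.1, h3.2]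
  rw [abs_mul, abs_of_nonneg (by norm_num : (0 : ℝ) ≤ 6)] at h4
  exact_mod_cast h4

theorem moment_zero : moment (0 : LaurentPolynomial ℤ) = 0 := by
  unfold moment
  rfl

theorem pair_eq (f f' : LaurentPolynomial ℤ) (w w' E E' : ℤ)
    (h : |(evA f).snd.re + 6 * (w : ℝ)| ≤ 3 * (E : ℝ))
    (h' : |(evA f').snd.re + 6 * (w' : ℝ)| ≤ 3 * (E' : ℝ)) (hf : f = f') :
    2 * |w - w'| ≤ E + E' := by
  have h1 := pair_bound f f' w w' E E' h h'
  rw [hf, sub_self, moment_zero] at h1
  linarith

theorem one_bound (f : LaurentPolynomial ℤ) (w E : ℤ)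
    (h : |(evA f).snd.re + 6 * (w : ℝ)| ≤ 3 * (E : ℝ)) (hf : f = 1) : 2 * |w| ≤ E := by
  have h1 := pair_eq f 1 w 0 E 0 h (by
    rw [map_one, TrivSqZeroExt.snd_one, Complex.zero_re, Int.cast_zero, mul_zero, mul_zero,
      add_zero, abs_zero]) hf
  rw [sub_zero, add_zero] at h1
  exact h1

/-- no error if all twist numbers are divisible by `3` -/
theorem error_three (I : Fin n → Fin n → Prop) (e : Fin n → Bool) (S : Finset (Fin n))
    (h : ∀ i ∈ S, (3 : ℤ) ∣ twistNumber I e i) : errorTerm I e S = 0 := by
  classical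
  have h1 : (S.filter fun i => ¬ (6 : ℤ) ∣ twistNumber I e i) =
      S.filter fun i => twistNumber I e i % 6 = 3 := by
    refine Finset.filter_congr fun i hi => ?_
    have := h i hi
    omega
  unfold errorTerm
  rw [h1, sub_self, mul_zero]

/-- **Knotoid diagrams** -/
theorem slabKnotoid {n' : ℕ} (D : GaussDiagram n) (S : Finset (Fin n))
    (hS : Transversal D.Interlaced S) (D' : GaussDiagram n') (S' : Finset (Fin n'))
    (hS' : Transversal D'.Interlaced S') :
    6 * |parallelWrithe D.Interlaced D.sign - parallelWrithe D'.Interlaced D'.sign| ≤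
        moment (D.normalizedBracket - D'.normalizedBracket) +
          3 * errorTerm D.Interlaced D.sign S + 3 * errorTerm D'.Interlaced D'.sign S' ∧
      (D.normalizedBracket = 1 →
        2 * |parallelWrithe D.Interlaced D.sign| ≤ errorTerm D.Interlaced D.sign S) ∧
      ((∀ i ∈ S, (3 : ℤ) ∣ twistNumber D.Interlaced D.sign i) →
        (∀ i ∈ S', (3 : ℤ) ∣ twistNumber D'.Interlaced D'.sign i) →
        D.normalizedBracket = D'.normalizedBracket →
        parallelWrithe D.Interlaced D.sign = parallelWrithe D'.Interlaced D'.sign) := by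
  refine ⟨pair_bound _ _ _ _ _ _ (knotoid_re D S hS) (knotoid_re D' S' hS'),
    one_bound _ _ _ (knotoid_re D S hS), fun h h' hf => ?_⟩
  have h1 := pair_eq _ _ _ _ _ _ (knotoid_re D S hS) (knotoid_re D' S' hS') hf
  rw [error_three _ _ _ h, error_three _ _ _ h'] at h1
  have h2 := abs_nonneg
    (parallelWrithe D.Interlaced D.sign - parallelWrithe D'.Interlaced D'.sign)
  exact sub_eq_zero.1 (abs_eq_zero.1 (by omega))

/-- **Knot diagrams** -/
theorem slabKnot {n' : ℕ} (g : GaussJones.Code n) (e : Fin n → Bool) (S : Finset (Fin n))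
    (hS : Transversal (GaussJones.Interlaced g) S) (g' : GaussJones.Code n')
    (e' : Fin n' → Bool) (S' : Finset (Fin n'))
    (hS' : Transversal (GaussJones.Interlaced g') S') :
    6 * |parallelWrithe (GaussJones.Interlaced g) e -
        parallelWrithe (GaussJones.Interlaced g') e'| ≤
        moment (GaussJones.fPoly g e - GaussJones.fPoly g' e') +
          3 * errorTerm (GaussJones.Interlaced g) e S +
          3 * errorTerm (GaussJones.Interlaced g') e' S' ∧
      (GaussJones.fPoly g e = 1 →
        2 * |parallelWrithe (GaussJones.Interlaced g) e| ≤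
          errorTerm (GaussJones.Interlaced g) e S) ∧
      ((∀ i ∈ S, (3 : ℤ) ∣ twistNumber (GaussJones.Interlaced g) e i) →
        (∀ i ∈ S', (3 : ℤ) ∣ twistNumber (GaussJones.Interlaced g') e' i) →
        GaussJones.fPoly g e = GaussJones.fPoly g' e' →
        parallelWrithe (GaussJones.Interlaced g) e =
          parallelWrithe (GaussJones.Interlaced g') e') := by
  refine ⟨pair_bound _ _ _ _ _ _ (knot_re g e S hS) (knot_re g' e' S' hS'),
    one_bound _ _ _ (knot_re g e S hS), fun h h' hf => ?_⟩
  have h1 := pair_eq _ _ _ _ _ _ (knot_re g e S hS) (knot_re g' e' S' hS') hf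
  rw [error_three _ _ _ h, error_three _ _ _ h'] at h1
  have h2 := abs_nonneg
    (parallelWrithe (GaussJones.Interlaced g) e - parallelWrithe (GaussJones.Interlaced g') e')
  exact sub_eq_zero.1 (abs_eq_zero.1 (by omega))

end Pool.Agent.SLAB
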